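import Pool.Agent.H474R4.QB.Iface

/-! QB6: from the classes to all integers. -/

set_option autoImplicit false

open Finset

namespace Pool.Agent.H474R4.QB

open Pool.Agent.H361R2.PP
open Pool.Agent.H410R2
open Pool.Agent.H410R2.AC (wt GG cfg term WW pos Inj coef)

namespace BlockAux

theorem log_small {K κ : ℝ} (hK : 0 < K) (hκ : 0 < κ) : ∃ X₀ : ℕ, ∀ X : ℕ, X₀ ≤ X →
    K * Real.log X ≤ κ * X := by
  have h1 := (Real.isLittleO_log_id_atTop.bound (div_pos hκ hK)).and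
    (Filter.eventually_ge_atTop (1 : ℝ))
  have h2 := (tendsto_natCast_atTop_atTop (R := ℝ)).eventually h1
  obtain ⟨X₀, h3⟩ := Filter.eventually_atTop.1 h2
  refine ⟨X₀, fun X hX => ?_⟩
  obtain ⟨h4, h5⟩ := h3 X hX
  have h6 : 0 ≤ Real.log X := Real.log_nonneg h5
  rw [Real.norm_of_nonneg h6, id, Real.norm_of_nonneg (by linarith)] at h4
  calc K * Real.log X ≤ K * (κ / K * X) := mul_le_mul_of_nonneg_left h4 hK.le
    _ = κ * X := by field_simp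

theorem card_class (a L W b : ℕ) (hW : 0 < W) (hb : b < W) :
    (((Ico a (a + L)).filter (fun n => n % W = b)).card : ℝ) ≤ (L : ℝ) / W + 1 := by
  have h1 : (Ico a (a + L)).filter (fun n => n % W = b) =
      (Ico a (a + L)).filter (fun n => n ≡ b [MOD W]) := by
    apply filter_congr
    intro n _
    unfold Nat.ModEq
    rw [Nat.mod_eq_of_lt hb]
  have h2 := Nat.Ico_filter_modEq_card a (a + L) hW b
  rw [← h1] at h2
  have hWq : (0 : ℚ) < W := by exact_mod_cast hW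
  have h3 : ((((Ico a (a + L)).filter (fun n => n % W = b)).card : ℤ) : ℚ) ≤
      (L : ℚ) / W + 1 := by
    rw [h2]
    push_cast
    apply max_le
    · have h4 := Int.ceil_lt_add_one (((a : ℚ) + L - b) / W)
      have h5 := Int.le_ceil (((a : ℚ) - b) / W)
      have h6 : ((a : ℚ) + L - b) / W = ((a : ℚ) - b) / W + L / W := by ring
      rw [h6] at h4
      rw [h6]
      linarith
    · positivity
  have h7 : (((((Ico a (a + L)).filter (fun n => n % W = b)).card : ℤ) : ℚ) : ℝ) ≤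
      (((L : ℚ) / W + 1 : ℚ) : ℝ) := by exact_mod_cast h3
  push_cast at h7
  exact h7

open Classical in
theorem sum_le_classes (X : ℕ) (P : ℕ → Prop) (q q' : ℝ) (hq : q ≤ q')
    (h : ∀ b < Wm X, (((SI X b).filter (fun n => P n)).card : ℝ) ≤ q * ((X : ℝ) / Wm X)) :
    (((Ico X (2 * X)).filter (fun n => P n)).card : ℝ) ≤ q' * X := by
  have hW := Wm_pos X
  have h1 : ((Ico X (2 * X)).filter (fun n => P n)).card =
      ∑ b ∈ range (Wm X), ((SI X b).filter (fun n => P n)).card := by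
    rw [card_eq_sum_card_fiberwise (f := fun n => n % Wm X) (t := range (Wm X))]
    · refine sum_congr rfl fun b _ => ?_
      congr 1
      ext n
      simp only [mem_filter, mem_SI, mem_Ico]
      tauto
    · intro n _
      simp only [coe_range, Set.mem_Iio]
      exact Nat.mod_lt _ hW
  rw [h1]
  push_cast
  calc ∑ b ∈ range (Wm X), (((SI X b).filter (fun n => P n)).card : ℝ) ≤
        ∑ b ∈ range (Wm X), q * ((X : ℝ) / Wm X) := sum_le_sum fun b hb => h b (mem_range.1 hb)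
    _ = q * X := by
        rw [sum_const, card_range, nsmul_eq_mul]
        have : (Wm X : ℝ) ≠ 0 := by exact_mod_cast hW.ne'
        field_simp
    _ ≤ q' * X := mul_le_mul_of_nonneg_right hq (Nat.cast_nonneg X)

theorem numerics {η η₁ ξ s' r C J cc s2 e : ℝ} (hη : η₁ ≤ η) (h0 : 0 < η₁) (h1 : η₁ ≤ 1)
    (hξ : ξ = η₁ ^ 2 / 10000) (hs' : s' = ξ / 16) (hr : r ≤ ξ / 150) (hC : 0 < C)
    (hJ : 1000 * (C + 1) / η₁ ^ 2 ≤ J)
    (hcc : cc = η₁ ^ 2 / (32 * (C + 1))) (hs2 : s2 = (η₁ ^ 2 / 1000) ^ 2 / (C + 1))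
    (he : e = s' + (ξ + r) + Real.sqrt (s2 * C)) :
    e ≤ 1 ∧ 3 / 4 + e + Real.sqrt (2 * (C / J + 4 * e)) + Real.sqrt (2 * cc * C) ≤ 3 / 4 + η := by
  have hη2 : 0 < η₁ ^ 2 := by positivity
  have hη21 : η₁ ^ 2 ≤ η₁ := by nlinarith
  have hsq : Real.sqrt (s2 * C) ≤ η₁ ^ 2 / 1000 := by
    apply Real.sqrt_le_iff.2
    refine ⟨by positivity, ?_⟩
    rw [hs2, div_mul_eq_mul_div, div_le_iff₀ (by linarith)]
    apply mul_le_mul_of_nonneg_left _ (by positivity)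
    linarith
  have he1 : e ≤ η₁ ^ 2 / 400 := by
    rw [he, hs']
    nlinarith
  have hJ0 : 0 < J := lt_of_lt_of_le (by positivity) hJ
  have hCJ : C / J ≤ η₁ ^ 2 / 1000 := by
    rw [div_le_iff₀ hη2] at hJ
    rw [div_le_iff₀ hJ0]
    linarith
  have hsq1 : Real.sqrt (2 * (C / J + 4 * e)) ≤ 15 / 100 * η₁ := by
    apply Real.sqrt_le_iff.2
    refine ⟨by positivity, ?_⟩
    nlinarith
  have hsq2 : Real.sqrt (2 * cc * C) ≤ η₁ / 4 := by
    apply Real.sqrt_le_iff.2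
    refine ⟨by positivity, ?_⟩
    rw [hcc]
    have h3 : 2 * (η₁ ^ 2 / (32 * (C + 1))) * C = η₁ ^ 2 * C / (16 * (C + 1)) := by
      field_simp
      ring
    rw [h3, div_le_iff₀ (by positivity)]
    nlinarith
  refine ⟨by nlinarith, by nlinarith⟩

end BlockAux

open BlockAux

open Classical in
/-- QB6, file Block.lean -/
theorem block_of (hSM : SM) (hSMX : SMX) (hClsM : ClsM) (hPer : PerClass)
    (hTy : Pool.Agent.H410R2.AC.Types) (hGGT : GGTypes)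
    (hGGS : GGSharp) (hMer : Mer) (hMrv : Mrv) (hCnt : Cnt) (hPnt : PntX) (hMni : Mni)
    (hWtx : Wtx) : BlockT := by
  intro m α ε Λ η hε hα hαΛ hη
  have _hMni := hMni
  have hΛ : 0 < Λ := by linarith
  obtain ⟨η₁, hη₁⟩ : ∃ η₁ : ℝ, η₁ = min η 1 := ⟨_, rfl⟩
  have hη10 : 0 < η₁ := by rw [hη₁]; exact lt_min hη one_pos
  have hη11 : η₁ ≤ 1 := by rw [hη₁]; exact min_le_right _ _
  have hη12 : η₁ ≤ η := by rw [hη₁]; exact min_le_left _ _
  obtain ⟨ξ, hξ⟩ : ∃ ξ : ℝ, ξ = η₁ ^ 2 / 10000 := ⟨_, rfl⟩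
  have hξ0 : 0 < ξ := by rw [hξ]; positivity
  have hξ1 : ξ ≤ 1 / 8 := by
    rw [hξ]
    nlinarith
  obtain ⟨s', hs'⟩ : ∃ s' : ℝ, s' = ξ / 16 := ⟨_, rfl⟩
  obtain ⟨s, hs⟩ : ∃ s : ℝ, s = ξ / (3000 * (Λ + 1)) := ⟨_, rfl⟩
  obtain ⟨θ, hθ⟩ : ∃ θ : ℝ, θ = ξ / 96 := ⟨_, rfl⟩
  have hs'0 : 0 < s' := by rw [hs']; linarith
  have hs0 : 0 < s := by rw [hs]; positivity
  have hθ0 : 0 < θ := by rw [hθ]; linarith
  have hθ1 : θ ≤ 1 / 32 := by rw [hθ]; linarith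
  have hsξ : s ≤ ξ / 3000 := by
    rw [hs]
    apply div_le_div_of_nonneg_left hξ0.le (by norm_num)
    linarith
  have hΛs : 20 * Λ * s ≤ ξ / 150 := by
    have h4 : Λ * s ≤ ξ / 3000 := by
      rw [hs, mul_div_assoc', div_le_div_iff₀ (by positivity) (by norm_num)]
      nlinarith
    linarith
  have hs1 : s ≤ 1 := by linarith
  have h7 : 7 * s ≤ s' := by rw [hs']; linarith
  obtain ⟨μ, hμd⟩ : ∃ μ : ℝ, μ = max (2 * ((m : ℝ) + 1) / s') ε := ⟨_, rfl⟩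
  have hμ1 : 2 * ((m : ℝ) + 1) / s' ≤ μ := by rw [hμd]; exact le_max_left _ _
  have hμ2 : ε ≤ μ := by rw [hμd]; exact le_max_right _ _
  obtain ⟨hm, hμ0, hξi⟩ := xi_ineq (m := m) hξ0 hξ1 hs' hs0.le hsξ hμ1
  obtain ⟨c, hcd⟩ : ∃ c : ℝ, c = Real.sqrt (μ / ε) - 1 := ⟨_, rfl⟩
  have hμε : 1 ≤ μ / ε := by rwa [le_div_iff₀ hε, one_mul]
  have hc : 0 ≤ c := by
    rw [hcd, sub_nonneg]
    exact Real.one_le_sqrt.2 hμε
  have hμc : μ = ε * (1 + c) ^ 2 := by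
    rw [hcd, add_sub_cancel, Real.sq_sqrt (by positivity)]
    field_simp
  obtain ⟨CT, hCT1, hCT⟩ := hGGT
  obtain ⟨CM, hCM1, hCM⟩ := hMer
  obtain ⟨η', hη'⟩ : ∃ η' : ℝ, η' = s / 2 / (2 * (1 + c) ^ 2 * Λ * CM) := ⟨_, rfl⟩
  have hη'0 : 0 < η' := by rw [hη']; positivity
  obtain ⟨t, u, β, V₀, hV₀, huβ, hβ1, hu, hty⟩ := hTy CT η' (θ / 2) hCT1 hη'0 (by linarith)
  have h1c : (1 : ℝ) ≤ (1 + c) ^ 2 := by nlinarith
  obtain ⟨δ₀, hδ₀, hsm⟩ := hSM t u ((1 + c) ^ 2) Λ θ s (fun τ => (huβ τ).1) hu hθ0 hθ1 h1c hΛ hs0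
  obtain ⟨δ₁, hδ₁, hsmx⟩ := hSMX t u ((1 + c) ^ 2) Λ θ s (fun τ => (huβ τ).1) hu hθ0 hθ1 h1c hΛ
    hs0
  obtain ⟨dβ, hdβ0, hdβ⟩ : ∃ d : ℝ, 0 < d ∧ ∀ τ, d ≤ β τ / η' := by
    refine ⟨1 / (∑ τ, η' / β τ + 1), ?_, fun τ => ?_⟩
    · have : 0 ≤ ∑ τ, η' / β τ := sum_nonneg fun τ _ => (div_pos hη'0 (huβ τ).2).le
      positivity
    · have h1 : η' / β τ ≤ ∑ τ, η' / β τ :=
        single_le_sum (f := fun τ => η' / β τ) (fun τ _ => (div_pos hη'0 (huβ τ).2).le)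
          (mem_univ τ)
      have h2 : 0 < η' / β τ := div_pos hη'0 (huβ τ).2
      calc 1 / (∑ τ, η' / β τ + 1) ≤ 1 / (η' / β τ) :=
            one_div_le_one_div_of_le h2 (by linarith)
        _ = β τ / η' := by rw [one_div_div]
  obtain ⟨δ, hδd⟩ : ∃ δ : ℝ, δ = min (min (min δ₀ δ₁) V₀) (min (1 / 8) dβ) := ⟨_, rfl⟩
  have hδ0 : 0 < δ := by
    rw [hδd]
    exact lt_min (lt_min (lt_min hδ₀ hδ₁) hV₀) (lt_min (by norm_num) hdβ0)
  have hδ1 : δ ≤ δ₀ := by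
    rw [hδd]; exact ((min_le_left _ _).trans (min_le_left _ _)).trans (min_le_left _ _)
  have hδ1' : δ ≤ δ₁ := by
    rw [hδd]; exact ((min_le_left _ _).trans (min_le_left _ _)).trans (min_le_right _ _)
  have hδ2 : δ ≤ V₀ := by rw [hδd]; exact (min_le_left _ _).trans (min_le_right _ _)
  have hδ3 : δ ≤ 1 / 8 := by rw [hδd]; exact (min_le_right _ _).trans (min_le_left _ _)
  have hδ4 : δ ≤ dβ := by rw [hδd]; exact (min_le_right _ _).trans (min_le_right _ _)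
  obtain ⟨C, X1, hC, hSMX'⟩ := hsm δ hδ0 hδ1
  obtain ⟨X2, hGX⟩ := hCT δ hδ0 hδ3
  obtain ⟨X3, hMX⟩ := hCM δ hδ0 (by linarith)
  obtain ⟨X4, hVX⟩ := hMrv δ (s / ((1 + c) ^ 2 * η' * δ * t + 1)) hδ0 (by linarith)
    (by positivity)
  obtain ⟨X5, hCX⟩ := hCnt s (min ε Λ) Λ hs0 (lt_min hε hΛ) hΛ
  obtain ⟨X6, hPX⟩ := hPnt s hs0
  obtain ⟨X7, hWX⟩ := hWtx.2 δ hδ0 (by linarith)
  obtain ⟨X8, hFX⟩ := log_floor (a := 1 / 4 - 2 * θ) (θ := θ) (by linarith) hθ0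
  obtain ⟨cc, hcc⟩ : ∃ cc : ℝ, cc = η₁ ^ 2 / (32 * (C + 1)) := ⟨_, rfl⟩
  have hcc0 : 0 < cc := by rw [hcc]; positivity
  obtain ⟨s2, hs2⟩ : ∃ s2 : ℝ, s2 = (η₁ ^ 2 / 1000) ^ 2 / (C + 1) := ⟨_, rfl⟩
  have hs20 : 0 < s2 := by rw [hs2]; positivity
  refine ⟨cc, hcc0, ⌈1000 * (C + 1) / η₁ ^ 2⌉₊, ?_, fun J hJJ => ?_⟩
  · apply Nat.one_le_iff_ne_zero.2
    have : 0 < ⌈1000 * (C + 1) / η₁ ^ 2⌉₊ := Nat.ceil_pos.2 (by positivity)
    exact this.ne'
  have hJr : 1000 * (C + 1) / η₁ ^ 2 ≤ (J : ℝ) := Nat.ceil_le.1 hJJ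
  have hJ0r : (0 : ℝ) < J := lt_of_lt_of_le (by positivity) hJr
  have hJ0 : 0 < J := by exact_mod_cast hJ0r
  obtain ⟨X9, hXX⟩ := hsmx δ hδ0 hδ1' ((J : ℝ) * (Λ + 1)) (by positivity)
  obtain ⟨X10, hlog1⟩ := log_small (K := (J : ℝ) * (Λ + 1) + 1) (κ := s2) (by positivity) hs20
  obtain ⟨X11, hlog2⟩ := log_small (K := 1) (κ := s') one_pos hs'0
  refine ⟨X1 + X2 + X3 + X4 + X5 + X6 + X7 + X8 + X9 + X10 + X11 + 16, fun X hX sd hsdW hsd0
    hsd1 hsd2 => ?_⟩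
  have hX2 : 2 ≤ X := by omega
  have hX1 : 1 ≤ X := by omega
  have hXr : (0 : ℝ) < X := by exact_mod_cast hX1
  have hL : 0 < Real.log X := Real.log_pos (by exact_mod_cast hX2)
  have hL1 : 1 ≤ Real.log X := by
    rw [Real.le_log_iff_exp_le hXr]
    have h1 := Real.exp_one_lt_d9
    have h2 : (16 : ℝ) ≤ X := by exact_mod_cast (show 16 ≤ X by omega)
    linarith
  obtain ⟨hw1, -, hw3⟩ := hWX X (by omega)
  have hJ : 2 ^ 2 ^ JJ δ X ≤ X := by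
    have h1 : (X : ℝ) ^ δ ≤ (X : ℝ) ^ (1 : ℝ) :=
      Real.rpow_le_rpow_of_exponent_le (by exact_mod_cast hX1) (by linarith)
    rw [Real.rpow_one] at h1
    exact_mod_cast hw1.trans h1
  have hHX : HH X < X := lt_of_lt_of_le hw3 hJ
  obtain ⟨hV0, hM1, hM2⟩ := hMX X (by omega)
  obtain ⟨hF1, hF2⟩ := hFX X (by omega)
  have hWpos := Wm_pos X
  have hWr : (0 : ℝ) < Wm X := by exact_mod_cast hWpos
  have hWlog : (Wm X : ℝ) ≤ Real.log X := by
    refine (hWtx.1 X (by omega)).trans ?_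
    have h1 := Real.rpow_le_rpow_of_exponent_le hL1 (show (7 / 20 : ℝ) ≤ 1 by norm_num)
    rwa [Real.rpow_one] at h1
  have hΩ0 : 0 < (X : ℝ) / Wm X := div_pos hXr hWr
  have hlogA := hlog1 X (by omega)
  have hlogB := hlog2 X (by omega)
  rw [one_mul] at hlogB
  obtain ⟨e, he⟩ : ∃ e : ℝ, e = s' + (ξ + 20 * Λ * s) + Real.sqrt (s2 * C) := ⟨_, rfl⟩
  obtain ⟨he1, hfin⟩ := numerics hη12 hη10 hη11 hξ hs' hΛs hC hJr hcc hs2 he
  apply sum_le_classes X (fun n => (((range J).filter (fun j => n + j * sd < 2 * X ∧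
    Good m (fun _ : Fin 1 => α) ε Λ X (n + j * sd))).card : ℝ) ≤ cc * J) _ _ hfin
  intro b hb
  -- families
  obtain ⟨S, hS1, hS2, hS3, hS4⟩ := fam_of (X := X) (T := θ / 2) hδ0 hL (by linarith)
    (hty δ · · · hδ0 hδ2) (hGX X (by omega))
  have hBcnt : ((BB X b ⌊Λ * Real.log X⌋₊).card : ℝ) ≤
      (1 + s) * (Λ * Real.log X * (Nat.totient (Wm X) / Wm X)) := by
    have h1 := hCX X (by omega) b 0 (Λ * Real.log X) le_rfl (by
      rw [zero_add]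
      exact mul_le_mul_of_nonneg_right (min_le_right _ _) hL.le) le_rfl
    rw [sub_zero] at h1
    have h2 : (BB X b ⌊Λ * Real.log X⌋₊).filter
        (fun a : ℕ => (0 : ℝ) < a ∧ (a : ℝ) ≤ Λ * Real.log X) = BB X b ⌊Λ * Real.log X⌋₊ := by
      apply filter_true_of_mem
      intro a ha
      rw [mem_BB] at ha
      refine ⟨by exact_mod_cast ha.1, ?_⟩
      exact (Nat.le_floor_iff (by positivity)).1 ha.2.1
    rw [h2] at h1
    linarith [(abs_le.1 h1).2]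
  obtain ⟨D, hsit, hDcf⟩ := sit_of (CM := CM) (X := X) (b := b) (θ := θ) (C := C) hc hs0 hs1 hδ0
    hη'0 hΛ (by linarith) hη' (fun τ => (huβ τ).2) hβ1 (fun τ => hδ4.trans (hdβ τ)) hL S hS1
    hS2 hS3 hS4
    (fun a => if ∃ i : Fin 1, CL ((fun _ : Fin 1 => α) i) ε (Real.log X) a then c else -1)
    (by intro a; split_ifs; exacts [Or.inl rfl, Or.inr rfl])
    (fun D B hB c hc => hSMX' X (by omega) b hb D B hB c hc) hBcnt hV0 hM1 (hVX X (by omega)) hJ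
  obtain ⟨hA1, hA2, hA3, hA4, hA5⟩ := hClsM hsit hX1 hHX hL hθ0 hθ1 hC hΛ m (fun _ : Fin 1 => α)
    ε hε (fun a => by rw [hDcf]) (by
      intro i
      have h1 := hCX X (by omega) b (α * Real.log X) ((α + ε) * Real.log X)
        (mul_nonneg hα hL.le) (by
          have h2 : min ε Λ * Real.log X ≤ ε * Real.log X :=
            mul_le_mul_of_nonneg_right (min_le_left _ _) hL.le
          linarith) (mul_le_mul_of_nonneg_right hαΛ hL.le)
      have h2 : (α + ε) * Real.log X - α * Real.log X = ε * Real.log X := by ring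
      rw [h2] at h1
      exact h1) hBcnt (hPX X (by omega))
    (VG_le hGGS hθ0 hθ1 hX1 hM2 hV0 hF1 hF2) s' μ ξ h7 (by linarith) hμc hm
    (by rw [hθ]; exact hξi) _ _ rfl rfl
  refine hPer X b J sd (fun n => WW (BB X b ⌊Λ * Real.log X⌋₊) (fun _ => 1) (xx D n))
    (fun n => Good m (fun _ : Fin 1 => α) ε Λ X n) ((X : ℝ) / Wm X)
    ((X : ℝ) / Wm X * ZZ D (BB X b ⌊Λ * Real.log X⌋₊) (fun _ => 1)) s' s2 C (ξ + 20 * Λ * s) cc e
    hJ0 hsdW hsd0 hΩ0 hA1 hs'0.le hs20.le hC.le (by positivity) hcc0.le he he1 ?_ hA2 hA3 hA4 ?_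
    ?_ ?_
  · have h1 := card_class X X (Wm X) b hWpos hb
    have h2 : SI X b = (Ico X (X + X)).filter (fun n => n % Wm X = b) := by
      unfold SI
      rw [two_mul]
    rw [h2]
    refine h1.trans ?_
    have h3 : 1 ≤ s' * ((X : ℝ) / Wm X) := by
      rw [mul_div_assoc', le_div_iff₀ hWr, one_mul]
      linarith
    linarith
  · intro i hi0 hiJ
    have h1 := hXX X (by omega) b hb D (i * sd) (hsd1.trans (Nat.le_mul_of_pos_left sd hi0)) (by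
      push_cast
      have hiJ' : (i : ℝ) ≤ J := by exact_mod_cast hiJ.le
      calc (i : ℝ) * sd ≤ (J : ℝ) * ((Λ + 1) * Real.log X) :=
            mul_le_mul hiJ' hsd2 (Nat.cast_nonneg _) hJ0r.le
        _ = _ := by ring)
    have h2 := (abs_le.1 h1).2
    have h3 : s * ((X : ℝ) / Wm X) ≤ s' * ((X : ℝ) / Wm X) :=
      mul_le_mul_of_nonneg_right (by linarith) hΩ0.le
    have h4 : ((X : ℝ) / Wm X * ZZ D (BB X b ⌊Λ * Real.log X⌋₊) (fun _ => 1)) ^ 2 /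
        ((X : ℝ) / Wm X) =
        (X : ℝ) / Wm X * ZZ D (BB X b ⌊Λ * Real.log X⌋₊) (fun _ => 1) ^ 2 := by
      have h5 : ∀ x y : ℝ, 0 < x → (x * y) ^ 2 / x = x * y ^ 2 := by
        intro x y hx
        field_simp
      exact h5 _ _ hΩ0
    rw [h4]
    linarith
  · have h1 : 1 / 4 - (ξ + 20 * Λ * s) = 1 / 4 - ξ - 20 * Λ * s := by ring
    rw [h1]
    exact hA5
  · have h1 : (SI X b).filter (fun n => n < X + J * sd) ⊆
        (Ico X (X + J * sd)).filter (fun n => n % Wm X = b) := by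
      intro n hn
      rw [mem_filter, mem_SI] at hn
      rw [mem_filter, mem_Ico]
      exact ⟨⟨hn.1.1, hn.2⟩, hn.1.2.2⟩
    have h2 : (((SI X b).filter (fun n => n < X + J * sd)).card : ℝ) ≤
        (((Ico X (X + J * sd)).filter (fun n => n % Wm X = b)).card : ℝ) := by
      exact_mod_cast card_le_card h1
    have h3 := card_class X (J * sd) (Wm X) b hWpos hb
    refine h2.trans (h3.trans ?_)
    have h4 : ((J * sd : ℕ) : ℝ) + Wm X ≤ s2 * X := by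
      push_cast
      have h5 : (J : ℝ) * sd ≤ J * ((Λ + 1) * Real.log X) :=
        mul_le_mul_of_nonneg_left hsd2 hJ0r.le
      calc (J : ℝ) * sd + Wm X ≤ J * ((Λ + 1) * Real.log X) + Real.log X := by linarith
        _ = ((J : ℝ) * (Λ + 1) + 1) * Real.log X := by ring
        _ ≤ _ := hlogA
    have h6 : ((J * sd : ℕ) : ℝ) / Wm X + 1 = (((J * sd : ℕ) : ℝ) + Wm X) / Wm X := by
      field_simp
    rw [h6, mul_div_assoc']
    exact div_le_div_of_nonneg_right h4 hWr.le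

end Pool.Agent.H474R4.QB
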