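import Pool.Agent.H474R4.QB.Iface

/-! QB4: Chebyshev and Cauchy-Schwarz. -/

set_option autoImplicit false

open Finset

namespace Pool.Agent.H474R4.QB

open Pool.Agent.H361R2.PP
open Pool.Agent.H410R2
open Pool.Agent.H410R2.AC (wt GG cfg term WW pos Inj coef)

namespace WCheb

theorem le_sqrt_mul {x a Ω : ℝ} (hΩ : 0 ≤ Ω) (h : x ^ 2 ≤ a * Ω ^ 2) : x ≤ Real.sqrt a * Ω := by
  have h1 : |x| ≤ Real.sqrt (a * Ω ^ 2) := Real.abs_le_sqrt h
  rw [Real.sqrt_mul' _ (sq_nonneg _), Real.sqrt_sq hΩ] at h1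
  exact (le_abs_self x).trans h1

end WCheb

open WCheb

theorem cheb : Cheb := by
  classical
  intro S J F G Ω e C c hJ hΩ he he1 hC hc hF hS hmean hsq hcross hbad
  have hJ' : (0 : ℝ) < J := by exact_mod_cast hJ
  set T : ℕ → ℝ := fun n => (∑ j ∈ range J, F j n) / J with hT
  -- the mean
  have h1 : (1 - e) * Ω ≤ ∑ n ∈ S, T n := by
    have e1 : ∑ n ∈ S, T n = (∑ j ∈ range J, ∑ n ∈ S, F j n) / J := by
      rw [hT, ← Finset.sum_div, Finset.sum_comm]
    rw [e1, le_div_iff₀ hJ']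
    have : ∑ _j ∈ range J, (1 - e) * Ω ≤ ∑ j ∈ range J, ∑ n ∈ S, F j n :=
      Finset.sum_le_sum fun j hj => hmean j (Finset.mem_range.1 hj)
    rw [Finset.sum_const, Finset.card_range, nsmul_eq_mul] at this
    linarith
  -- the second moment
  have h2 : ∑ n ∈ S, T n ^ 2 ≤ (C / J + 1 + e) * Ω := by
    have e1 : ∑ n ∈ S, T n ^ 2 =
        (∑ i ∈ range J, ∑ j ∈ range J, ∑ n ∈ S, F i n * F j n) / (J : ℝ) ^ 2 := by
      have : ∀ n ∈ S, T n ^ 2 = (∑ i ∈ range J, ∑ j ∈ range J, F i n * F j n) / (J : ℝ) ^ 2 := by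
        intro n _
        rw [hT]
        simp only []
        rw [div_pow, sq, Finset.sum_mul_sum]
      rw [Finset.sum_congr rfl this, ← Finset.sum_div]
      congr 1
      rw [Finset.sum_comm]
      refine Finset.sum_congr rfl fun i _ => ?_
      rw [Finset.sum_comm]
    have e2 : ∑ i ∈ range J, ∑ j ∈ range J, ∑ n ∈ S, F i n * F j n ≤
        ∑ i ∈ range J, ∑ j ∈ range J, ((if i = j then C * Ω else 0) + (1 + e) * Ω) := by
      refine Finset.sum_le_sum fun i hi => Finset.sum_le_sum fun j hj => ?_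
      have hi' := Finset.mem_range.1 hi
      have hj' := Finset.mem_range.1 hj
      rcases eq_or_ne i j with rfl | hij
      · rw [if_pos rfl]
        have : ∑ n ∈ S, F i n * F i n ≤ C * Ω := by
          refine le_trans (le_of_eq ?_) (hsq i hi')
          exact Finset.sum_congr rfl fun n _ => (sq _).symm
        have : 0 ≤ (1 + e) * Ω := by positivity
        linarith
      · rw [if_neg hij, zero_add]
        exact hcross i hi' j hj' hij
    have e3 : ∑ i ∈ range J, ∑ j ∈ range J, ((if i = j then C * Ω else 0) + (1 + e) * Ω) =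
        J * (C * Ω) + J * (J * ((1 + e) * Ω)) := by
      simp_rw [Finset.sum_add_distrib, Finset.sum_ite_eq]
      rw [Finset.sum_ite_mem, Finset.inter_self]
      simp only [Finset.sum_const, Finset.card_range, nsmul_eq_mul]
    rw [e1, div_le_iff₀ (by positivity)]
    refine (e2.trans_eq e3).trans (le_of_eq ?_)
    field_simp
    ring
  -- the variance
  have h3 : ∑ n ∈ S, (1 - T n) ^ 2 ≤ (C / J + 4 * e) * Ω := by
    have e1 : ∑ n ∈ S, (1 - T n) ^ 2 = (S.card : ℝ) - 2 * ∑ n ∈ S, T n + ∑ n ∈ S, T n ^ 2 := by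
      have : ∀ n ∈ S, (1 - T n) ^ 2 = 1 - 2 * T n + T n ^ 2 := fun n _ => by ring
      rw [Finset.sum_congr rfl this, Finset.sum_add_distrib, Finset.sum_sub_distrib,
        ← Finset.mul_sum, Finset.sum_const, nsmul_eq_mul, mul_one]
    rw [e1]
    nlinarith
  set B : Finset ℕ := S.filter (fun n => (((range J).filter (fun j => G j n)).card : ℝ) ≤ c * J)
    with hB
  have hBS : B ⊆ S := Finset.filter_subset _ _
  have hBc : (B.card : ℝ) ≤ 2 * Ω := by
    have : (B.card : ℝ) ≤ S.card := by exact_mod_cast Finset.card_le_card hBS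
    nlinarith
  -- step 2
  have h4 : ∑ n ∈ B, (1 - T n) ≤ Real.sqrt (2 * (C / J + 4 * e)) * Ω := by
    refine le_sqrt_mul hΩ.le ?_
    have e1 := Finset.sum_mul_sq_le_sq_mul_sq B (fun _ => (1 : ℝ)) (fun n => 1 - T n)
    simp only [one_mul, one_pow, Finset.sum_const, nsmul_eq_mul, mul_one] at e1
    refine e1.trans ?_
    have e2 : ∑ n ∈ B, (1 - T n) ^ 2 ≤ (C / J + 4 * e) * Ω :=
      (Finset.sum_le_sum_of_subset_of_nonneg hBS fun n _ _ => sq_nonneg _).trans h3
    have e3 : 0 ≤ (C / J + 4 * e) * Ω := by positivity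
    calc (B.card : ℝ) * ∑ n ∈ B, (1 - T n) ^ 2 ≤ 2 * Ω * ((C / J + 4 * e) * Ω) :=
          mul_le_mul hBc e2 (Finset.sum_nonneg fun n _ => sq_nonneg _) (by positivity)
      _ = 2 * (C / J + 4 * e) * Ω ^ 2 := by ring
  -- step 3
  have h5 : ∑ n ∈ B, T n = (∑ j ∈ range J, ∑ n ∈ B.filter (fun n => ¬ G j n), F j n) / J +
      (∑ n ∈ B, ∑ j ∈ range J, (if G j n then 1 else 0) * F j n) / J := by
    rw [← add_div, Finset.sum_comm (s := B), ← Finset.sum_add_distrib, hT, ← Finset.sum_div,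
      Finset.sum_comm]
    congr 1
    refine Finset.sum_congr rfl fun j _ => ?_
    have e1 : ∑ n ∈ B.filter (fun n => ¬ G j n), F j n = ∑ n ∈ B, if ¬ G j n then F j n else 0 :=
      Finset.sum_filter _ _
    rw [e1, ← Finset.sum_add_distrib]
    refine Finset.sum_congr rfl fun n _ => ?_
    by_cases h : G j n <;> simp [h]
  have h6 : (∑ j ∈ range J, ∑ n ∈ B.filter (fun n => ¬ G j n), F j n) / J ≤ (3 / 4 + e) * Ω := by
    rw [div_le_iff₀ hJ']
    have : ∑ j ∈ range J, ∑ n ∈ B.filter (fun n => ¬ G j n), F j n ≤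
        ∑ _j ∈ range J, (3 / 4 + e) * Ω := by
      refine Finset.sum_le_sum fun j hj => ?_
      refine le_trans ?_ (hbad j (Finset.mem_range.1 hj))
      exact Finset.sum_le_sum_of_subset_of_nonneg (Finset.filter_subset_filter _ hBS)
        fun n _ _ => hF j n
    rw [Finset.sum_const, Finset.card_range, nsmul_eq_mul] at this
    linarith
  have h7 : (∑ n ∈ B, ∑ j ∈ range J, (if G j n then (1 : ℝ) else 0) * F j n) / J ≤
      Real.sqrt (2 * c * C) * Ω := by
    refine le_sqrt_mul hΩ.le ?_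
    rw [div_pow, div_le_iff₀ (by positivity), ← Finset.sum_product']
    refine (Finset.sum_mul_sq_le_sq_mul_sq (B ×ˢ range J)
      (fun p => if G p.2 p.1 then (1 : ℝ) else 0) (fun p => F p.2 p.1)).trans ?_
    have e1 : ∑ p ∈ B ×ˢ range J, (if G p.2 p.1 then (1 : ℝ) else 0) ^ 2 ≤ 2 * Ω * (c * J) := by
      rw [Finset.sum_product' (f := fun n j => (if G j n then (1 : ℝ) else 0) ^ 2)]
      calc ∑ n ∈ B, ∑ j ∈ range J, (if G j n then (1 : ℝ) else 0) ^ 2
          ≤ ∑ _n ∈ B, c * J := by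
            refine Finset.sum_le_sum fun n hn => ?_
            have h8 := (Finset.mem_filter.1 hn).2
            refine le_trans (le_of_eq ?_) h8
            rw [Finset.card_filter]
            push_cast
            refine Finset.sum_congr rfl fun j _ => ?_
            by_cases h : G j n <;> simp [h]
        _ = (B.card : ℝ) * (c * J) := by rw [Finset.sum_const, nsmul_eq_mul]
        _ ≤ 2 * Ω * (c * J) := mul_le_mul_of_nonneg_right hBc (by positivity)
    have e2 : ∑ p ∈ B ×ˢ range J, F p.2 p.1 ^ 2 ≤ J * (C * Ω) := by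
      rw [Finset.sum_product' (f := fun n j => F j n ^ 2), Finset.sum_comm]
      calc ∑ j ∈ range J, ∑ n ∈ B, F j n ^ 2 ≤ ∑ _j ∈ range J, C * Ω := by
            refine Finset.sum_le_sum fun j hj => ?_
            exact (Finset.sum_le_sum_of_subset_of_nonneg hBS fun n _ _ => sq_nonneg _).trans
              (hsq j (Finset.mem_range.1 hj))
        _ = J * (C * Ω) := by rw [Finset.sum_const, Finset.card_range, nsmul_eq_mul]
    calc (∑ p ∈ B ×ˢ range J, (if G p.2 p.1 then (1 : ℝ) else 0) ^ 2) *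
          ∑ p ∈ B ×ˢ range J, F p.2 p.1 ^ 2
        ≤ 2 * Ω * (c * J) * (J * (C * Ω)) :=
          mul_le_mul e1 e2 (Finset.sum_nonneg fun p _ => sq_nonneg _) (by positivity)
      _ = 2 * c * C * Ω ^ 2 * (J : ℝ) ^ 2 := by ring
  have h8 : (B.card : ℝ) = ∑ n ∈ B, T n + ∑ n ∈ B, (1 - T n) := by
    rw [← Finset.sum_add_distrib]
    simp
  have h9 : (B.card : ℝ) ≤
      (3 / 4 + e + Real.sqrt (2 * (C / J + 4 * e)) + Real.sqrt (2 * c * C)) * Ω := by
    rw [h8, h5]
    linarith
  exact h9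

end Pool.Agent.H474R4.QB
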