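import Pool.Agent.H474R4.QB.Iface
import Pool.Agent.H361R2.PP.Cls3

/-! QB3: one class, one cluster. -/

set_option autoImplicit false

open Finset

namespace Pool.Agent.H474R4.QB

open Pool.Agent.H361R2.PP
open Pool.Agent.H410R2
open Pool.Agent.H410R2.AC (wt GG cfg term WW pos Inj coef)

open Classical in
theorem clsM_of (hCol : Col) (hCob : Cob) (hMni : Mni) (hPz : Pz) : ClsM := by
  intro t u c0 δ X Λ θ s C η c b β D h hX hHX hL hθ0 hθ hC hΛ m α ε hε hcf hcA hcB hpnt hVG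
    s' μ ξ hs' hs'1 hμ hm hξ A0 V0 hA00 hV00
  subst hA00
  subst hV00
  set N := ⌊Λ * Real.log X⌋₊ with hN
  set B := BB X b N with hB
  set M := ZZ D B (fun _ => 1) with hM
  set Ω := (X : ℝ) / Wm X with hΩ
  set Ω' := Pr X / Nat.totient (Wm X) with hΩ'
  set L := Real.log X with hLd
  set f := (Nat.totient (Wm X) : ℝ) / Wm X with hf
  set V : ℕ → ℝ := fun n => WW B (fun _ => 1) (xx D n) with hV
  have hs0 := h.s0
  have hs1 := h.s1
  have hc := h.c00
  have hW0 : (0 : ℝ) < Wm X := by exact_mod_cast Wm_pos X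
  have hφ0 : (0 : ℝ) < Nat.totient (Wm X) := by exact_mod_cast Nat.totient_pos.2 (Wm_pos X)
  have hX0 : (0 : ℝ) < X := by exact_mod_cast hX
  have hΩ0 : 0 < Ω := div_pos hX0 hW0
  have hΩ'0 : 0 ≤ Ω' := Om'_nonneg X
  have hf0 : 0 < f := div_pos hφ0 hW0
  have hM1 : 1 ≤ M := by
    rw [hM, ZZ_one]
    exact (hMni t B β (qq D) η h.η0 h.β0 h.β1 (fun τ a => qq_nonneg h.v0 τ a) h.hη).1
  have hM0 : 0 < M := by linarith
  have hLf : L * f * Ω' = Pr X * L / Wm X := by
    rw [hf, hΩ']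
    field_simp
  have hLf1 : L * f * Ω' ≤ (1 + s) * Ω := by
    rw [hLf, hΩ, ← mul_div_assoc]
    apply div_le_div_of_nonneg_right _ hW0.le
    have := (abs_le.1 hpnt).2
    linarith
  have hLf2 : (1 - s) * Ω ≤ L * f * Ω' := by
    rw [hLf, hΩ, ← mul_div_assoc]
    apply div_le_div_of_nonneg_right _ hW0.le
    have := (abs_le.1 hpnt).1
    linarith
  have hθ4 : 5 / 32 ≤ 1 / 4 - 3 * θ := by linarith
  set v := VV δ X / GG (S1 δ θ X) with hv
  have hG1 : 1 ≤ GG (S1 δ θ X) := GG1_ge hX hθ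
  have hv0 : 0 ≤ v := div_nonneg h.v0 (by linarith)
  set w4 := 1 / 4 - 3 * θ with hw4
  have hw40 : 0 < w4 := by linarith
  have hvL : v * (f * L) ≤ 1 / w4 := by
    rw [le_div_iff₀ hw40]
    calc v * (f * L) * w4 = v * (f * (w4 * L)) := by ring
      _ ≤ 1 := hVG
  have hμ0 : 0 < μ := by rw [hμ]; positivity
  have hcov : ∀ i, ∀ a ∈ AA X b N (α i) ε, a ∈ B ∧ D.cf a = c := by
    intro i a ha
    unfold AA at ha
    rw [mem_filter] at ha
    refine ⟨ha.1, ?_⟩
    rw [hcf a, if_pos ⟨i, ha.2⟩]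
  -- cardinalities
  have hA1 : ∀ i, (1 - s) * (ε * L * f) ≤ ((AA X b N (α i) ε).card : ℝ) := by
    intro i
    have := (abs_le.1 (hcA i)).1
    linarith
  have hA2 : ∀ i, ((AA X b N (α i) ε).card : ℝ) ≤ (1 + s) * (ε * L * f) := by
    intro i
    have := (abs_le.1 (hcA i)).2
    linarith
  have hLf0 : 0 < L * f := mul_pos hL hf0
  -- second moment
  have hsm := (h.sm B (Subset.refl _) (fun _ => 1) (by
    intro σ
    rw [abs_one]
    have := h.cc0
    nlinarith))
  have hsm1 := abs_le.1 hsm.1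
  have hsM : s * Ω ≤ s * (Ω * M) := by
    apply mul_le_mul_of_nonneg_left _ hs0
    exact le_mul_of_one_le_right hΩ0.le hM1
  obtain ⟨A, hA⟩ : ∃ A : ℝ, A = Ω * M := ⟨_, rfl⟩
  rw [← hA] at hsM
  have hsm2 : ∑ n ∈ SI X b, V n ^ 2 ≤ A + s * Ω := by
    rw [hA]
    linarith [hsm1.2]
  have hsm3 : A - s * Ω ≤ ∑ n ∈ SI X b, V n ^ 2 := by
    rw [hA]
    linarith [hsm1.1]
  have hA0 : 0 < A := by
    rw [hA]
    exact mul_pos hΩ0 hM0
  obtain ⟨h1, h1'⟩ := in4 hs' hs0 hA0 hsM hsm2 hsm3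
  -- clusters, first moment
  have h2 : ∀ i, (1 - s') * μ * A ≤ ∑ n ∈ SI X b, V n ^ 2 * Np (AA X b N (α i) ε) n := by
    intro i
    rw [moment1]
    have h3 : ((AA X b N (α i) ε).card : ℝ) * (Ω' * ((1 + c) ^ 2 * M * (1 - 3 * s))) ≤
        ∑ a ∈ AA X b N (α i) ε, ∑ n ∈ SP X b a, V n ^ 2 := by
      rw [← nsmul_eq_mul, ← sum_const]
      refine sum_le_sum fun a ha => ?_
      exact (E3 hCol hCob hMni h (hcov i a ha).1 (hcov i a ha).2).1
    refine le_trans ?_ h3
    by_cases hs3 : 1 - 3 * s ≤ 0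
    · exfalso
      linarith
    · push Not at hs3
      have h4 : (1 - s) * (ε * L * f) * (Ω' * ((1 + c) ^ 2 * M * (1 - 3 * s))) ≤
          ((AA X b N (α i) ε).card : ℝ) * (Ω' * ((1 + c) ^ 2 * M * (1 - 3 * s))) := by
        apply mul_le_mul_of_nonneg_right (hA1 i)
        exact mul_nonneg hΩ'0 (mul_nonneg (mul_nonneg (sq_nonneg _) hM0.le) hs3.le)
      refine le_trans ?_ h4
      have h5 : (1 - s) * (ε * L * f) * (Ω' * ((1 + c) ^ 2 * M * (1 - 3 * s))) =
          (L * f * Ω') * ((1 - s) * (1 - 3 * s) * (μ * M)) := by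
        rw [hμ]; ring
      rw [h5]
      have h6 : (1 - s) * Ω * ((1 - s) * (1 - 3 * s) * (μ * M)) ≤
          (L * f * Ω') * ((1 - s) * (1 - 3 * s) * (μ * M)) := by
        apply mul_le_mul_of_nonneg_right hLf2
        have : 0 ≤ μ * M := by positivity
        have h8 : 0 ≤ (1 - s) * (1 - 3 * s) := mul_nonneg (by linarith) hs3.le
        exact mul_nonneg h8 this
      refine le_trans ?_ h6
      have h7 : 1 - s' ≤ (1 - s) * ((1 - s) * (1 - 3 * s)) := in1 hs0 hs1 hs'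
      calc (1 - s') * μ * A = (1 - s') * (μ * (Ω * M)) := by rw [hA]; ring
        _ ≤ (1 - s) * ((1 - s) * (1 - 3 * s)) * (μ * (Ω * M)) := by
            apply mul_le_mul_of_nonneg_right h7
            positivity
        _ = _ := by ring
  have h2' : ∀ i, ∑ n ∈ SI X b, V n ^ 2 * Np (AA X b N (α i) ε) n ≤ (1 + s') * μ * A := by
    intro i
    rw [moment1]
    have h3 : ∑ a ∈ AA X b N (α i) ε, ∑ n ∈ SP X b a, V n ^ 2 ≤
        ((AA X b N (α i) ε).card : ℝ) * (Ω' * ((1 + c) ^ 2 * M * (1 + s))) := by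
      rw [← nsmul_eq_mul, ← sum_const]
      refine sum_le_sum fun a ha => ?_
      exact (E3 hCol hCob hMni h (hcov i a ha).1 (hcov i a ha).2).2
    refine h3.trans ?_
    have h4 : ((AA X b N (α i) ε).card : ℝ) * (Ω' * ((1 + c) ^ 2 * M * (1 + s))) ≤
        (1 + s) * (ε * L * f) * (Ω' * ((1 + c) ^ 2 * M * (1 + s))) := by
      apply mul_le_mul_of_nonneg_right (hA2 i)
      exact mul_nonneg hΩ'0 (mul_nonneg (mul_nonneg (sq_nonneg _) hM0.le) (by linarith))
    refine h4.trans ?_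
    have h5 : (1 + s) * (ε * L * f) * (Ω' * ((1 + c) ^ 2 * M * (1 + s))) =
        (L * f * Ω') * ((1 + s) * (1 + s) * (μ * M)) := by
      rw [hμ]; ring
    rw [h5]
    have h6 : (L * f * Ω') * ((1 + s) * (1 + s) * (μ * M)) ≤
        (1 + s) * Ω * ((1 + s) * (1 + s) * (μ * M)) := by
      apply mul_le_mul_of_nonneg_right hLf1
      positivity
    refine h6.trans ?_
    have h7 : (1 + s) * ((1 + s) * (1 + s)) ≤ 1 + s' := in2 hs0 hs1 hs'
    calc (1 + s) * Ω * ((1 + s) * (1 + s) * (μ * M)) =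
        (1 + s) * ((1 + s) * (1 + s)) * (μ * (Ω * M)) := by ring
      _ ≤ (1 + s') * (μ * (Ω * M)) := by
          apply mul_le_mul_of_nonneg_right h7
          positivity
      _ = _ := by rw [hA]; ring
  -- clusters, second factorial moment
  have h3 : ∀ i, ∑ n ∈ SI X b, V n ^ 2 * (Np (AA X b N (α i) ε) n *
      ((Np (AA X b N (α i) ε) n : ℝ) - 1)) ≤ (1 + s) ^ 4 / w4 * μ ^ 2 * A := by
    intro i
    rw [moment2]
    obtain ⟨T, hT⟩ : ∃ T : ℝ, T = Ω' * v * ((1 + c) ^ 4 * M * (1 + s)) := ⟨_, rfl⟩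
    have hT0 : 0 ≤ T := by
      rw [hT]
      exact mul_nonneg (mul_nonneg hΩ'0 hv0) (by positivity)
    have h4 : ∑ a ∈ AA X b N (α i) ε, ∑ a' ∈ (AA X b N (α i) ε).erase a,
        ∑ n ∈ (SP X b a).filter (fun n => (n + a').Prime), V n ^ 2 ≤
        ∑ a ∈ AA X b N (α i) ε, ∑ a' ∈ AA X b N (α i) ε, T := by
      refine sum_le_sum fun a ha => ?_
      refine le_trans ?_ (sum_le_sum_of_subset_of_nonneg (erase_subset a _)
        fun _ _ _ => hT0)
      refine sum_le_sum fun a' ha' => ?_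
      rw [mem_erase] at ha'
      rw [hT]
      exact E4 hCol hCob hMni h hX hθ (hcov i a ha).1 (hcov i a' ha'.2).1 ha'.1.symm
        (hcov i a ha).2 (hcov i a' ha'.2).2
    refine h4.trans ?_
    rw [sum_const, sum_const, nsmul_eq_mul, nsmul_eq_mul, ← mul_assoc]
    have hcA0 : (0 : ℝ) ≤ ((AA X b N (α i) ε).card : ℝ) := Nat.cast_nonneg _
    have h5 : ((AA X b N (α i) ε).card : ℝ) * ((AA X b N (α i) ε).card : ℝ) ≤
        (1 + s) * (ε * L * f) * ((1 + s) * (ε * L * f)) :=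
      mul_le_mul (hA2 i) (hA2 i) hcA0 (by positivity)
    refine (mul_le_mul_of_nonneg_right h5 hT0).trans ?_
    have h6 : (1 + s) * (ε * L * f) * ((1 + s) * (ε * L * f)) * T =
        (L * f * Ω') * (v * (f * L)) * ((1 + s) ^ 3 * (μ ^ 2 * M)) := by
      rw [hT, hμ]; ring
    rw [h6]
    have h7 : (L * f * Ω') * (v * (f * L)) ≤ (1 + s) * Ω * (1 / w4) :=
      mul_le_mul hLf1 hvL (by positivity) (by positivity)
    calc (L * f * Ω') * (v * (f * L)) * ((1 + s) ^ 3 * (μ ^ 2 * M)) ≤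
        (1 + s) * Ω * (1 / w4) * ((1 + s) ^ 3 * (μ ^ 2 * M)) :=
          mul_le_mul_of_nonneg_right h7 (by positivity)
      _ = _ := by rw [hA]; ring
  -- the empty part
  have h4 : ∑ n ∈ SI X b, V n ^ 2 * Np (EE X b N α ε) n ≤ (20 * Λ * s) * A := by
    rw [moment1]
    obtain ⟨T, hT⟩ : ∃ T : ℝ, T = Ω * v * ((η + s) * M) := ⟨_, rfl⟩
    have hη0 := h.η0
    have hT0 : 0 ≤ T := by
      rw [hT]
      exact mul_nonneg (mul_nonneg hΩ0.le hv0) (by positivity)
    have h5 : ∑ a ∈ EE X b N α ε, ∑ n ∈ SP X b a, V n ^ 2 ≤ ∑ a ∈ B, T := by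
      have hsub : EE X b N α ε ⊆ B := by
        unfold EE
        exact filter_subset _ _
      refine le_trans ?_ (sum_le_sum_of_subset_of_nonneg hsub fun _ _ _ => hT0)
      refine sum_le_sum fun a ha => ?_
      have haB := hsub ha
      unfold EE at ha
      rw [mem_filter] at ha
      rw [hT]
      exact E2 hCol hCob hMni h hX hθ haB (by rw [hcf a, if_neg ha.2])
    refine h5.trans ?_
    rw [sum_const, nsmul_eq_mul]
    refine (mul_le_mul_of_nonneg_right hcB hT0).trans ?_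
    have h6 : (1 + s) * (Λ * L * f) * T = (v * (f * L)) * ((1 + s) * Λ * (η + s) * A) := by
      rw [hT, hA]; ring
    rw [h6]
    have h7 : v * (f * L) ≤ 32 / 5 := by
      refine hvL.trans ?_
      rw [div_le_iff₀ hw40]
      linarith
    have h8 : 0 ≤ (1 + s) * Λ * (η + s) * A := by positivity
    refine (mul_le_mul_of_nonneg_right h7 h8).trans ?_
    have h9 : (1 + s) * (η + s) ≤ 3 * s := in3 hs0 hs1 h.ηs
    calc 32 / 5 * ((1 + s) * Λ * (η + s) * A) = 32 / 5 * (Λ * A) * ((1 + s) * (η + s)) := by ring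
      _ ≤ 32 / 5 * (Λ * A) * (3 * s) := mul_le_mul_of_nonneg_left h9 (by positivity)
      _ = 96 / 5 * (Λ * A * s) := by ring
      _ ≤ 20 * (Λ * A * s) := mul_le_mul_of_nonneg_right (by norm_num) (by positivity)
      _ = _ := by ring
  have h5 : ∑ n ∈ SI X b, V n ^ 4 ≤ C * Ω := hsm.2.2.2.2
  have hV2 : ∀ n ∈ SI X b, 0 ≤ V n ^ 2 := fun n _ => sq_nonneg _
  have hcl : (1 / 4 - ξ) * A ≤
      ∑ n ∈ (SI X b).filter (fun n => m ≤ Np (AA X b N (α 0) ε) n), V n ^ 2 := by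
    refine le_trans ?_ (hPz (SI X b) (fun n => V n ^ 2) (Np (AA X b N (α 0) ε)) m A μ s'
      ((1 + s) ^ 4 / w4) hV2 hA0 (by linarith) hs'1 hμ0 (by positivity) hm h1 (h2 0) (h2' 0)
      (h3 0))
    exact mul_le_mul_of_nonneg_right hξ hA0.le
  have hsplit : ∑ n ∈ (SI X b).filter (fun n => m ≤ Np (AA X b N (α 0) ε) n), V n ^ 2 ≤
      ∑ n ∈ (SI X b).filter (fun n => Good m α ε Λ X n), V n ^ 2 +
        ∑ n ∈ SI X b, V n ^ 2 * Np (EE X b N α ε) n := by
    rw [sum_filter, sum_filter, ← sum_add_distrib]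
    refine sum_le_sum fun n hn => ?_
    have hVn := hV2 n hn
    by_cases hP : m ≤ Np (AA X b N (α 0) ε) n
    · rw [if_pos hP]
      by_cases hQ : Np (EE X b N α ε) n = 0
      · have hG : Good m α ε Λ X n := by
          refine good_of m α ε Λ hHX hn ?_ hQ
          have h10 : Gd m (fun i => Np (AA X b N (α i) ε)) n = 1 := by
            unfold Gd
            rw [filter_true_of_mem]
            · simp
            · intro i _
              rw [Subsingleton.elim i 0]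
              exact hP
          have h11 : 1 ≤ 4 * Gd m (fun i => Np (AA X b N (α i) ε)) n := by
            rw [h10]
            norm_num
          exact h11
        rw [if_pos hG, hQ]
        simp
      · have h12 : (1 : ℝ) ≤ Np (EE X b N α ε) n := by
          exact_mod_cast Nat.one_le_iff_ne_zero.2 hQ
        have h13 : V n ^ 2 ≤ V n ^ 2 * Np (EE X b N α ε) n := le_mul_of_one_le_right hVn h12
        split_ifs
        · linarith
        · linarith
    · rw [if_neg hP]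
      have h12 : (0 : ℝ) ≤ Np (EE X b N α ε) n := Nat.cast_nonneg _
      have h13 : 0 ≤ V n ^ 2 * Np (EE X b N α ε) n := mul_nonneg hVn h12
      split_ifs
      · linarith
      · linarith
  have hfin1 : (1 / 4 - ξ - 20 * Λ * s) * A ≤
      ∑ n ∈ (SI X b).filter (fun n => Good m α ε Λ X n), V n ^ 2 := by
    have h14 : (1 / 4 - ξ - 20 * Λ * s) * A = (1 / 4 - ξ) * A - (20 * Λ * s) * A := by ring
    rw [h14]
    linarith
  rw [hA] at h1 h1' hfin1
  exact ⟨le_mul_of_one_le_right hΩ0.le hM1, h1', h1, h5, hfin1⟩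

end Pool.Agent.H474R4.QB
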