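import Pool.Agent.H474R4.QB.Iface

set_option autoImplicit false

open Finset

namespace Pool.Agent.H474R4.QB

open Pool.Agent.H361R2.PP
open Pool.Agent.H410R2
open Pool.Agent.H410R2.AC (wt GG cfg term WW pos Inj coef)

namespace FinalAux

/-- a good integer is followed by an isolated cluster -/
lemma iso_of {m : ℕ} {ε Λ : ℝ} {X n : ℕ} (hε : 0 < ε) (hΛ : 0 < Λ) (hX : 16 ≤ X) (hn1 : X ≤ n)
    (hn2 : n < 2 * X) (hN : (4 * Λ + ε) * Real.log X ≤ X)
    (hG : Good (max m 1) (fun _ : Fin 1 => 2 * Λ) ε (4 * Λ + ε) X n) :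
    ∃ p, IsoCluster m ε Λ p ∧ n < p ∧ p ≤ n + ⌊(4 * Λ + ε) * Real.log X⌋₊ := by
  classical
  obtain ⟨h1, h2⟩ := hG
  have hXr : (16 : ℝ) ≤ X := by exact_mod_cast hX
  set Lg := Real.log X with hLg
  have hL1 : 0 < Lg := Real.log_pos (by linarith)
  -- the cluster
  obtain ⟨A, hA1, hA2⟩ : ∃ A : Finset ℕ, (∀ a, a ∈ A ↔ (1 ≤ a ∧ a ≤ ⌊(4 * Λ + ε) * Lg⌋₊) ∧
      CL (2 * Λ) ε Lg a ∧ (n + a).Prime) ∧ max m 1 ≤ A.card := by
    have h3 : 0 < ((univ : Finset (Fin 1)).filter (fun _i => max m 1 ≤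
        ((Icc 1 ⌊(4 * Λ + ε) * Lg⌋₊).filter (fun a =>
          CL (2 * Λ) ε Lg a ∧ (n + a).Prime)).card)).card := by
      have h4 : 1 ≤ 4 * ((univ : Finset (Fin 1)).filter (fun _i => max m 1 ≤
        ((Icc 1 ⌊(4 * Λ + ε) * Lg⌋₊).filter (fun a =>
          CL (2 * Λ) ε Lg a ∧ (n + a).Prime)).card)).card := by
        convert h1
      omega
    obtain ⟨i, hi⟩ := card_pos.1 h3
    rw [mem_filter] at hi
    refine ⟨_, ?_, hi.2⟩
    intro a
    rw [mem_filter, mem_Icc]
  have hAne : A.Nonempty := card_pos.1 (by have := le_max_right m 1; omega)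
  set a0 := A.min' hAne with ha0
  have ha0A : a0 ∈ A := A.min'_mem hAne
  have hmin : ∀ a ∈ A, a0 ≤ a := fun a ha => A.min'_le a ha
  obtain ⟨⟨b1, b2⟩, ⟨b3, b4⟩, b5⟩ := (hA1 a0).1 ha0A
  have hp1 : X ≤ n + a0 := by omega
  have hp1r : (X : ℝ) ≤ ((n + a0 : ℕ) : ℝ) := by exact_mod_cast hp1
  have hlogp : Lg ≤ Real.log ((n + a0 : ℕ) : ℝ) :=
    Real.log_le_log (by linarith) hp1r
  have hb2r : (a0 : ℝ) ≤ X := by
    have : (a0 : ℝ) ≤ (4 * Λ + ε) * Lg := (Nat.le_floor_iff (by positivity)).1 b2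
    linarith
  have hlogp2 : Real.log ((n + a0 : ℕ) : ℝ) ≤ 2 * Lg := by
    have h3 : ((n + a0 : ℕ) : ℝ) ≤ (X : ℝ) ^ 2 := by
      have h4 : (n : ℝ) ≤ 2 * X := by exact_mod_cast hn2.le
      push_cast
      nlinarith
    have h5 := Real.log_le_log (by linarith : (0:ℝ) < ((n + a0 : ℕ) : ℝ)) h3
    rw [Real.log_pow] at h5
    exact_mod_cast h5
  refine ⟨n + a0, ⟨b5, ?_, ?_⟩, by omega, by omega⟩
  · -- the number of primes in the cluster
    have h3 : A.card ≤ ((Icc (n + a0) (n + a0 + ⌊ε * Real.log ((n + a0 : ℕ) : ℝ)⌋₊)).filter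
        Nat.Prime).card := by
      apply card_le_card_of_injOn (fun a => n + a)
      · intro a ha
        have ha' : a ∈ A := ha
        obtain ⟨⟨c1, c2⟩, ⟨c3, c4⟩, c5⟩ := (hA1 a).1 ha'
        have hm := hmin a ha'
        rw [mem_coe, mem_filter, mem_Icc]
        refine ⟨⟨by simp only; omega, ?_⟩, c5⟩
        have h6 : a - a0 ≤ ⌊ε * Real.log ((n + a0 : ℕ) : ℝ)⌋₊ := by
          apply Nat.le_floor
          rw [Nat.cast_sub hm]
          have h7 : ε * Lg ≤ ε * Real.log ((n + a0 : ℕ) : ℝ) :=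
            mul_le_mul_of_nonneg_left hlogp hε.le
          nlinarith
        simp only
        omega
      · intro a _ b _ hab
        simp only at hab
        omega
    exact (le_max_left m 1).trans (hA2.trans h3)
  · intro q hq hqp
    have h3 : |(q : ℝ) - ((n + a0 : ℕ) : ℝ)| ≤ 2 * Λ * Lg := by
      refine hqp.trans ?_
      have := mul_le_mul_of_nonneg_left hlogp2 hΛ.le
      linarith
    rw [abs_le] at h3
    push_cast at h3
    have h4 : (n : ℝ) < q := by linarith [h3.1]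
    have h4' : n < q := by exact_mod_cast h4
    obtain ⟨a, rfl⟩ : ∃ a, q = n + a := ⟨q - n, by omega⟩
    have h5 : a ≤ ⌊(4 * Λ + ε) * Lg⌋₊ := by
      apply Nat.le_floor
      push_cast at h3
      nlinarith [h3.2]
    obtain ⟨i, hi⟩ := h2 a (mem_Icc.2 ⟨by omega, h5⟩) hq
    have haA : a ∈ A := (hA1 a).2 ⟨⟨by omega, h5⟩, hi, hq⟩
    have hm := hmin a haA
    refine ⟨by omega, ?_⟩
    have h7 : ε * Lg ≤ ε * Real.log ((n + a0 : ℕ) : ℝ) :=
      mul_le_mul_of_nonneg_left hlogp hε.le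
    have h8 := hi.2
    push_cast at h7 ⊢
    nlinarith

end FinalAux

open FinalAux in
/-- QB7, file Final.lean -/
theorem final_of (hB : BlockT) (hWtx : Wtx) : Final := by
  classical
  intro m ε Λ η hε hΛ hη
  obtain ⟨c0, hc0, J0, hJ0, hB1⟩ := hB (max m 1) (2 * Λ) ε (4 * Λ + ε) η hε (by positivity)
    (by linarith) hη
  set Λw := 4 * Λ + ε with hΛw
  have hw : 0 < Λw := by positivity
  refine ⟨c0 / (2 * (Λw + 1)), by positivity, (Λw + 1) * (2 * J0), fun K hK => ?_⟩
  have hJ0r : (1 : ℝ) ≤ J0 := by exact_mod_cast hJ0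
  have hK0 : 0 ≤ K := le_trans (by positivity) hK
  set J := ⌊K / (Λw + 1)⌋₊ with hJdef
  have hJ : J0 ≤ J := by
    apply Nat.le_floor
    rw [le_div_iff₀ (by positivity)]
    nlinarith
  have hJr : (1 : ℝ) ≤ J := hJ0r.trans (by exact_mod_cast hJ)
  have hJK : (J : ℝ) * (Λw + 1) ≤ K := by
    have := Nat.floor_le (show 0 ≤ K / (Λw + 1) by positivity)
    rw [← hJdef, le_div_iff₀ (by positivity)] at this
    exact this
  have hKJ : K ≤ 2 * (Λw + 1) * J := by
    have h1 := (Nat.lt_floor_add_one (K / (Λw + 1))).le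
    rw [← hJdef, div_le_iff₀ (by positivity)] at h1
    nlinarith
  obtain ⟨X1, hX1⟩ := hB1 J hJ
  have hlo := (Real.isLittleO_log_id_atTop.bound (c := 1 / Λw) (by positivity))
  obtain ⟨X2, hX2⟩ := (tendsto_natCast_atTop_atTop.eventually hlo).exists_forall_of_atTop
  refine ⟨max (max X1 X2) 16, fun X hX => ?_⟩
  simp only [max_le_iff] at hX
  obtain ⟨⟨hXa, hXb⟩, hXc⟩ := hX
  have hXr : (16 : ℝ) ≤ X := by exact_mod_cast hXc
  set Lg := Real.log X with hLg
  have hL1 : 1 ≤ Lg := by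
    rw [hLg, Real.le_log_iff_exp_le (by linarith)]
    have := Real.exp_one_lt_d9
    linarith
  have hN : Λw * Lg ≤ X := by
    have h1 := hX2 X hXb
    rw [Real.norm_of_nonneg (by linarith), Real.norm_of_nonneg (by simp only [id]; linarith)] at h1
    simp only [id] at h1
    calc Λw * Lg ≤ Λw * (1 / Λw * X) := mul_le_mul_of_nonneg_left h1 hw.le
      _ = X := by field_simp
  set N := ⌊Λw * Lg⌋₊ with hNdef
  have hNr : (N : ℝ) ≤ Λw * Lg := Nat.floor_le (by positivity)
  have hW1 : 0 < Wm X := by unfold Wm; exact primorial_pos _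
  have hW2 : (Wm X : ℝ) ≤ Lg := by
    refine (hWtx.1 X hXc).trans ?_
    calc Real.log X ^ (7 / 20 : ℝ) ≤ Real.log X ^ (1 : ℝ) :=
          Real.rpow_le_rpow_of_exponent_le hL1 (by norm_num)
      _ = Lg := by rw [Real.rpow_one]
  set sd := Wm X * (N / Wm X + 1) with hsd
  have hsd1 : N < sd := by
    have h1 := Nat.div_add_mod N (Wm X)
    have h2 := Nat.mod_lt N hW1
    rw [hsd, mul_add, mul_one]
    omega
  have hsd2 : sd ≤ N + Wm X := by
    have h1 := Nat.div_add_mod N (Wm X)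
    rw [hsd, mul_add, mul_one]
    omega
  have hsd3 : (sd : ℝ) ≤ (Λw + 1) * Lg := by
    have : (sd : ℝ) ≤ N + Wm X := by exact_mod_cast hsd2
    linarith
  have hbad := hX1 X hXa sd (dvd_mul_right _ _) (by omega) hsd1.le hsd3
  -- complement
  set G : ℕ → Finset ℕ := fun n => (range J).filter (fun j => n + j * sd < 2 * X ∧
    Good (max m 1) (fun _ : Fin 1 => 2 * Λ) ε Λw X (n + j * sd)) with hGdef
  have hcompl : (X : ℝ) - (3 / 4 + η) * X ≤
      (((Ico X (2 * X)).filter (fun n => ¬ ((G n).card : ℝ) ≤ c0 * J)).card : ℝ) := by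
    have h1 := card_filter_add_card_filter_not (s := Ico X (2 * X))
      (fun n => ((G n).card : ℝ) ≤ c0 * J)
    rw [Nat.card_Ico] at h1
    have h2 : (((Ico X (2 * X)).filter (fun n => ((G n).card : ℝ) ≤ c0 * J)).card : ℝ) +
        (((Ico X (2 * X)).filter (fun n => ¬ ((G n).card : ℝ) ≤ c0 * J)).card : ℝ) = X := by
      have h3 : 2 * X - X = X := by omega
      rw [h3] at h1
      exact_mod_cast h1
    have h4 : (((Ico X (2 * X)).filter (fun n => ((G n).card : ℝ) ≤ c0 * J)).card : ℝ) ≤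
        (3 / 4 + η) * X := by
      convert hbad
    linarith
  have hsub : (Ico X (2 * X)).filter (fun n => ¬ ((G n).card : ℝ) ≤ c0 * J) ⊆
      (Ico X (2 * X)).filter (fun n => c0 / (2 * (Λw + 1)) * K ≤
        (((Ioc n (n + ⌊K * Real.log X⌋₊)).filter (fun p => IsoCluster m ε Λ p)).card : ℝ)) := by
    intro n hn
    rw [mem_filter] at hn ⊢
    refine ⟨hn.1, ?_⟩
    have hnX := mem_Ico.1 hn.1
    have hGn := hn.2
    push Not at hGn
    have h1 : c0 / (2 * (Λw + 1)) * K ≤ c0 * J := by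
      rw [div_mul_eq_mul_div, div_le_iff₀ (by positivity)]
      calc c0 * K ≤ c0 * (2 * (Λw + 1) * J) := mul_le_mul_of_nonneg_left hKJ hc0.le
        _ = _ := by ring
    refine h1.trans (hGn.le.trans ?_)
    -- the injection
    have hex : ∀ j ∈ G n, ∃ p, IsoCluster m ε Λ p ∧ n + j * sd < p ∧ p ≤ n + j * sd + N := by
      intro j hj
      rw [hGdef, mem_filter] at hj
      exact iso_of hε hΛ hXc (by omega) hj.2.1 hN hj.2.2
    choose! P hP1 hP2 hP3 using hex
    have hcard : (G n).card ≤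
        ((Ioc n (n + ⌊K * Real.log X⌋₊)).filter (fun p => IsoCluster m ε Λ p)).card := by
      apply card_le_card_of_injOn P
      · intro j hj
        have hj' : j ∈ G n := hj
        have hjJ : j < J := by
          rw [hGdef, mem_filter, mem_range] at hj'
          exact hj'.1
        rw [mem_coe, mem_filter, mem_Ioc]
        refine ⟨⟨by have := hP2 j hj'; omega, ?_⟩, hP1 j hj'⟩
        have h2 : P j ≤ n + J * sd := by
          have h3 := hP3 j hj'
          have h4 : (j + 1) * sd ≤ J * sd := Nat.mul_le_mul_right _ hjJ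
          rw [add_mul, one_mul] at h4
          omega
        have h5 : J * sd ≤ ⌊K * Real.log X⌋₊ := by
          apply Nat.le_floor
          push_cast
          calc (J : ℝ) * sd ≤ J * ((Λw + 1) * Lg) := by gcongr
            _ = (J * (Λw + 1)) * Lg := by ring
            _ ≤ K * Lg := mul_le_mul_of_nonneg_right hJK (by linarith)
        omega
      · intro j hj j' hj' hjj
        have hj1 : j ∈ G n := hj
        have hj2 : j' ∈ G n := hj'
        by_contra hne
        rcases Nat.lt_or_gt_of_ne hne with hlt | hlt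
        · have h3 := hP3 j hj1
          have h4 := hP2 j' hj2
          have h5 : (j + 1) * sd ≤ j' * sd := Nat.mul_le_mul_right _ hlt
          rw [add_mul, one_mul] at h5
          omega
        · have h3 := hP3 j' hj2
          have h4 := hP2 j hj1
          have h5 : (j' + 1) * sd ≤ j * sd := Nat.mul_le_mul_right _ hlt
          rw [add_mul, one_mul] at h5
          omega
    exact_mod_cast hcard
  have hfin : (((Ico X (2 * X)).filter (fun n => ¬ ((G n).card : ℝ) ≤ c0 * J)).card : ℝ) ≤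
      (((Ico X (2 * X)).filter (fun n => c0 / (2 * (Λw + 1)) * K ≤
        (((Ioc n (n + ⌊K * Real.log X⌋₊)).filter
          (fun p => IsoCluster m ε Λ p)).card : ℝ))).card : ℝ) := by
    exact_mod_cast card_le_card hsub
  have hres : (1 / 4 - η) * X ≤ (((Ico X (2 * X)).filter (fun n => c0 / (2 * (Λw + 1)) * K ≤
        (((Ioc n (n + ⌊K * Real.log X⌋₊)).filter
          (fun p => IsoCluster m ε Λ p)).card : ℝ))).card : ℝ) := by linarith
  convert hres

end Pool.Agent.H474R4.QB
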