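import Pool.Agent.H361R2.PP.Main3
import Pool.Agent.H361R2.PP.Iface3
import Pool.Agent.H474R3.AA.CoreFix

/-!
Project QB: in at least a quarter of all blocks (n, n + K log X] there are at least c K isolated
clusters of m primes.  (PP library of helper361 combined with the almost-all engine AA.)
-/

set_option autoImplicit false

open Finset

namespace Pool.Agent.H474R4.QB

open Pool.Agent.H361R2.PP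
open Pool.Agent.H410R2
open Pool.Agent.H410R2.AC (wt GG cfg term WW pos Inj coef)

/-- QB1a: translation of the positions -/
def Shift : Prop := ∀ (t dd : ℕ) (B : Finset ℕ) (y : Fin t → ℕ → ℝ),
  WW (B.image (fun a => a + dd)) (fun _ => 1) y = WW B (fun _ => 1) (fun τ a => y τ (a + dd))

/-- the hit sets of the project PP in the general engine -/
def Hs1 (p a : ℕ) : Finset ℕ := {rho p a}

/-- the sizes -/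
noncomputable def q1 (p : ℕ) : ℝ := (p : ℝ)

/-- QB1b: translation of the notation of the general engine GE -/
def Tr : Prop :=
  (∀ (P : Finset ℕ) (a m : ℕ), (∀ p ∈ P, 1 ≤ p) →
    Pool.Agent.H474R2.GE.rg Hs1 P a m = rg P a m) ∧
  (∀ (S : Finset (Finset ℕ)) (a m : ℕ), (∀ R ∈ S, ∀ p ∈ R, 1 ≤ p) →
    Pool.Agent.H474R2.GE.FF Hs1 q1 S (some a) m = FS S a m) ∧
  (∀ S : Finset (Finset ℕ), Pool.Agent.H474R2.GE.GG q1 S = GG S) ∧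
  (∀ P : Finset ℕ, Pool.Agent.H474R2.GE.Pi1 q1 P = AC.Pi1 P) ∧
  (∀ P : Finset ℕ, Pool.Agent.H474R2.GE.V1 q1 P = EN.V1 P) ∧
  (∀ (e : ℕ → ℕ) (P U : Finset ℕ), Pool.Agent.H474R2.GE.dl e Hs1 P U = EN.dl e rho P U) ∧
  (∀ P B : Finset ℕ, (∀ p ∈ P, p.Prime) → Pool.Agent.H474R2.GE.Hit 1 Hs1 q1 P B)

/-- QB1c: second moment of the product of the weights at `n` and at `n + dd` (no asymptotics) -/
def Sm4X : Prop := ∀ (t : ℕ) (C c0 : ℝ), 1 ≤ C → 1 ≤ c0 → ∃ K : ℕ, 1 ≤ K ∧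
  ∀ (δ : ℝ) (X b J D0 : ℕ) (P2' : Finset ℕ) (S : Finset ℕ) (Ω : ℝ)
    (Er : Finset ℕ → ℝ) (u : Fin t → ℝ) (D : Dat t u c0 δ X) (B : Finset ℕ) (dd : ℕ)
    (Y : Fin t → ℕ) (V d E : ℝ),
    J = JJ δ X → K ≤ b → K ≤ HH X → HH X < 2 ^ 2 ^ J → 1 ≤ J →
    (∀ p ∈ P2', p.Prime ∧ 2 ^ 2 ^ J ≤ p) → (∀ τ, ∀ R ∈ D.S τ, R ⊆ P2' ∧ ∏ p ∈ R, p ≤ Y τ) →
    (∀ τ, 1 ≤ Y τ) → 0 ≤ Ω → Eqd none (P1 (HH X) J ∪ P2') S Ω Er →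
    ∑ T ∈ (P1 (HH X) J ∪ P2').powerset.filter (fun T : Finset ℕ => ∏ p ∈ T, p ≤ D0),
      (K : ℝ) ^ T.card * Er T ≤ E →
    (2 ^ 2 ^ J) ^ (K * b) * ((∏ τ, Y τ) * ∏ τ, Y τ) ^ 2 ≤ D0 → 0 < V → V ≤ 1 → d ≤ 1 →
    AC.Pi1 P2' ≤ C / V →
    ((B ∪ B.image (fun a => a + dd)).card : ℝ) * VV δ X ≤ C / V →
    (∀ U ⊆ B ∪ B.image (fun a => a + dd), U.card ≤ 4 * t + 2 →
      EN.dl (ee none) rho (P1 (HH X) J ∪ P2') U ≤ d) →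
    Disjoint B (B.image (fun a => a + dd)) →
    |∑ n ∈ S, (WW B (fun _ => 1) (xx D n) * WW B (fun _ => 1) (xx D (n + dd))) ^ 2 -
      Ω * ZZ D B (fun _ => 1) ^ 2| ≤
      c0 ^ (4 * t) * EN.EF (t + t) K b J (B ∪ B.image (fun a => a + dd)).card Ω V d E

/-- QB2: asymptotics of the cross moments; `δ₀` does not depend on the size `Λ'` of the shifts -/
def SMX : Prop := ∀ (t : ℕ) (u : Fin t → ℝ) (c0 Λ θ s : ℝ), (∀ τ, 0 < u τ) → ∑ τ, u τ ≤ θ / 2 →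
  0 < θ → θ ≤ 1 / 32 → 1 ≤ c0 → 0 < Λ → 0 < s → ∃ δ₀ : ℝ, 0 < δ₀ ∧ ∀ δ : ℝ, 0 < δ → δ ≤ δ₀ →
  ∀ Λ' : ℝ, 0 < Λ' → ∃ X₀ : ℕ, ∀ X : ℕ, X₀ ≤ X → ∀ b : ℕ, b < Wm X → ∀ D : Dat t u c0 δ X,
  ∀ dd : ℕ, ⌊Λ * Real.log X⌋₊ ≤ dd → (dd : ℝ) ≤ Λ' * Real.log X →
    |∑ n ∈ SI X b, (WW (BB X b ⌊Λ * Real.log X⌋₊) (fun _ => 1) (xx D n) *
        WW (BB X b ⌊Λ * Real.log X⌋₊) (fun _ => 1) (xx D (n + dd))) ^ 2 -
      (X : ℝ) / Wm X * ZZ D (BB X b ⌊Λ * Real.log X⌋₊) (fun _ => 1) ^ 2| ≤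
      s * ((X : ℝ) / Wm X)

open Classical in
/-- QB3: one class, one cluster: moments of the weight and the mass of the good integers -/
def ClsM : Prop := ∀ {t : ℕ} {u : Fin t → ℝ} {c0 δ : ℝ} {X : ℕ} {Λ θ s C η c : ℝ} {b : ℕ}
    {β : Fin t → ℝ} {D : Dat t u c0 δ X}, Sit Λ θ s C η c b β D → 1 ≤ X →
    HH X < X → 0 < Real.log X → 0 < θ → θ ≤ 1 / 32 → 0 < C → 0 < Λ →
    ∀ (m : ℕ) (α : Fin 1 → ℝ) (ε : ℝ), 0 < ε →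
    (∀ a, D.cf a = if ∃ i, CL (α i) ε (Real.log X) a then c else -1) →
    (∀ i, |((AA X b ⌊Λ * Real.log X⌋₊ (α i) ε).card : ℝ) -
      ε * Real.log X * (Nat.totient (Wm X) / Wm X)| ≤
      s * (ε * Real.log X * (Nat.totient (Wm X) / Wm X))) →
    (((BB X b ⌊Λ * Real.log X⌋₊).card : ℝ) ≤
      (1 + s) * (Λ * Real.log X * (Nat.totient (Wm X) / Wm X))) →
    |Pr X * Real.log X - X| ≤ s * X →
    VV δ X / GG (S1 δ θ X) * (((Nat.totient (Wm X) : ℝ) / Wm X) *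
      ((1 / 4 - 3 * θ) * Real.log X)) ≤ 1 →
    ∀ (s' μ ξ : ℝ), 7 * s ≤ s' → s' ≤ 1 → μ = ε * (1 + c) ^ 2 →
    (1 + s') * (m : ℝ) ≤ (1 - s') * μ →
    1 / 4 - ξ ≤ ((1 - s') * μ - (1 + s') * m) ^ 2 /
      ((1 + s) ^ 4 / (1 / 4 - 3 * θ) * μ ^ 2 + (1 + s') * μ) →
    ∀ (A : ℝ) (V : ℕ → ℝ),
      A = (X : ℝ) / Wm X * ZZ D (BB X b ⌊Λ * Real.log X⌋₊) (fun _ => 1) →
      V = (fun n => WW (BB X b ⌊Λ * Real.log X⌋₊) (fun _ => 1) (xx D n)) →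
      (X : ℝ) / Wm X ≤ A ∧ (1 - s') * A ≤ ∑ n ∈ SI X b, V n ^ 2 ∧
      ∑ n ∈ SI X b, V n ^ 2 ≤ (1 + s') * A ∧ ∑ n ∈ SI X b, V n ^ 4 ≤ C * ((X : ℝ) / Wm X) ∧
      (1 / 4 - ξ - 20 * Λ * s) * A ≤
        ∑ n ∈ (SI X b).filter (fun n => Good m α ε Λ X n), V n ^ 2

open Classical in
/-- QB4: Chebyshev: almost uncorrelated functions with mean 1, each with mass at most 3/4 + e
on its own bad set -/
def Cheb : Prop := ∀ (S : Finset ℕ) (J : ℕ) (F : ℕ → ℕ → ℝ) (G : ℕ → ℕ → Prop) (Ω e C c : ℝ),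
  0 < J → 0 < Ω → 0 ≤ e → e ≤ 1 → 0 ≤ C → 0 ≤ c → (∀ j n, 0 ≤ F j n) →
  (S.card : ℝ) ≤ (1 + e) * Ω → (∀ j < J, (1 - e) * Ω ≤ ∑ n ∈ S, F j n) →
  (∀ j < J, ∑ n ∈ S, F j n ^ 2 ≤ C * Ω) →
  (∀ i < J, ∀ j < J, i ≠ j → ∑ n ∈ S, F i n * F j n ≤ (1 + e) * Ω) →
  (∀ j < J, ∑ n ∈ S.filter (fun n => ¬ G j n), F j n ≤ (3 / 4 + e) * Ω) →
  ((S.filter (fun n => (((range J).filter (fun j => G j n)).card : ℝ) ≤ c * J)).card : ℝ) ≤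
    (3 / 4 + e + Real.sqrt (2 * (C / J + 4 * e)) + Real.sqrt (2 * c * C)) * Ω

open Classical in
/-- QB5: one class: the integers with at most `c J` good translates -/
def PerClass : Prop := ∀ (X b J sd : ℕ) (V : ℕ → ℝ) (G : ℕ → Prop) (Ω A s s2 C ξ c e : ℝ),
  0 < J → Wm X ∣ sd → 0 < sd → 0 < Ω → Ω ≤ A → 0 ≤ s → 0 ≤ s2 → 0 ≤ C → 0 ≤ ξ → 0 ≤ c →
  e = s + ξ + Real.sqrt (s2 * C) → e ≤ 1 →
  ((SI X b).card : ℝ) ≤ (1 + s) * Ω →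
  (1 - s) * A ≤ ∑ n ∈ SI X b, V n ^ 2 → ∑ n ∈ SI X b, V n ^ 2 ≤ (1 + s) * A →
  ∑ n ∈ SI X b, V n ^ 4 ≤ C * Ω →
  (∀ i, 0 < i → i < J → ∑ n ∈ SI X b, (V n * V (n + i * sd)) ^ 2 ≤ A ^ 2 / Ω + s * Ω) →
  (1 / 4 - ξ) * A ≤ ∑ n ∈ (SI X b).filter G, V n ^ 2 →
  (((SI X b).filter (fun n => n < X + J * sd)).card : ℝ) ≤ s2 * Ω →
  (((SI X b).filter (fun n => (((range J).filter (fun j => n + j * sd < 2 * X ∧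
    G (n + j * sd))).card : ℝ) ≤ c * J)).card : ℝ) ≤
    (3 / 4 + e + Real.sqrt (2 * (C / J + 4 * e)) + Real.sqrt (2 * c * C)) * Ω

open Classical in
/-- QB6: all classes: the integers with at most `c J` good translates -/
def BlockT : Prop := ∀ (m : ℕ) (α ε Λ η : ℝ), 0 < ε → 0 ≤ α → α + ε ≤ Λ → 0 < η →
  ∃ c : ℝ, 0 < c ∧ ∃ J₀ : ℕ, 1 ≤ J₀ ∧ ∀ J : ℕ, J₀ ≤ J → ∃ X₀ : ℕ, ∀ X : ℕ, X₀ ≤ X →
  ∀ sd : ℕ, Wm X ∣ sd → 0 < sd → ⌊Λ * Real.log X⌋₊ ≤ sd → (sd : ℝ) ≤ (Λ + 1) * Real.log X →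
  (((Ico X (2 * X)).filter (fun n => (((range J).filter (fun j => n + j * sd < 2 * X ∧
    Good m (fun _ : Fin 1 => α) ε Λ X (n + j * sd))).card : ℝ) ≤ c * J)).card : ℝ) ≤
    (3 / 4 + η) * X

/-- `p` begins an isolated cluster of at least `m` primes -/
def IsoCluster (m : ℕ) (ε Λ : ℝ) (p : ℕ) : Prop :=
  p.Prime ∧ m ≤ ((Icc p (p + ⌊ε * Real.log p⌋₊)).filter Nat.Prime).card ∧
    ∀ q : ℕ, q.Prime → |(q : ℝ) - p| ≤ Λ * Real.log p → p ≤ q ∧ (q : ℝ) ≤ p + ε * Real.log p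

open Classical in
/-- QB7: the final statement -/
def Final : Prop := ∀ (m : ℕ) (ε Λ η : ℝ), 0 < ε → 0 < Λ → 0 < η → ∃ c : ℝ, 0 < c ∧
  ∃ K₀ : ℝ, ∀ K : ℝ, K₀ ≤ K → ∃ X₀ : ℕ, ∀ X : ℕ, X₀ ≤ X →
  (1 / 4 - η) * X ≤ (((Ico X (2 * X)).filter (fun n => c * K ≤
    (((Ioc n (n + ⌊K * Real.log X⌋₊)).filter (fun p => IsoCluster m ε Λ p)).card : ℝ))).card : ℝ)

end Pool.Agent.H474R4.QB
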