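import Pool.Agent.H474R4.QB.Iface
import Pool.Agent.H361R2.PP.Cls1

set_option autoImplicit false

open Finset

namespace Pool.Agent.H474R4.QB

open Pool.Agent.H361R2.PP
open Pool.Agent.H410R2
open Pool.Agent.H410R2.AC (wt GG cfg term WW pos Inj coef)

namespace PCx

open Classical in
/-- substitution -/
theorem subst {X b sd : ℕ} (hW : Wm X ∣ sd) (j : ℕ) (f : ℕ → ℝ) :
    ∑ n ∈ SI X b, (if n + j * sd < 2 * X then f (n + j * sd) else 0) =
      ∑ m ∈ (SI X b).filter (fun m => X + j * sd ≤ m), f m := by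
  have hmod : ∀ n, (n + j * sd) % Wm X = n % Wm X := by
    intro n
    obtain ⟨q, hq⟩ := hW
    rw [hq, show j * (Wm X * q) = Wm X * (j * q) by ring, Nat.add_mul_mod_self_left]
  rw [← Finset.sum_filter]
  apply Finset.sum_nbij' (fun n => n + j * sd) (fun m => m - j * sd)
  · intro n hn
    simp only [Finset.mem_filter, mem_SI] at hn ⊢
    rw [hmod]
    refine ⟨⟨by omega, hn.2, hn.1.2.2⟩, by omega⟩
  · intro m hm
    simp only [Finset.mem_filter, mem_SI] at hm ⊢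
    have h1 : m - j * sd + j * sd = m := by omega
    refine ⟨⟨by omega, by omega, ?_⟩, by omega⟩
    rw [← hmod, h1]
    exact hm.1.2.2
  · intro n _
    simp
  · intro m hm
    simp only [Finset.mem_filter, mem_SI] at hm
    omega
  · intro n _
    rfl

open Classical in
theorem subst_le {X b sd : ℕ} (hW : Wm X ∣ sd) (j : ℕ) (f : ℕ → ℝ) (hf : ∀ m, 0 ≤ f m) :
    ∑ n ∈ SI X b, (if n + j * sd < 2 * X then f (n + j * sd) else 0) ≤ ∑ m ∈ SI X b, f m := by
  rw [subst hW]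
  exact Finset.sum_le_sum_of_subset_of_nonneg (Finset.filter_subset _ _) (fun m _ _ => hf m)

open Classical in
theorem edge {X b J sd : ℕ} {V : ℕ → ℝ} {Ω C s2 : ℝ} (hΩ : 0 < Ω) (hs2 : 0 ≤ s2)
    (h4 : ∑ n ∈ SI X b, V n ^ 4 ≤ C * Ω)
    (hc : (((SI X b).filter (fun n => n < X + J * sd)).card : ℝ) ≤ s2 * Ω) :
    ∑ n ∈ (SI X b).filter (fun n => n < X + J * sd), V n ^ 2 ≤ Real.sqrt (s2 * C) * Ω := by
  set T := (SI X b).filter (fun n => n < X + J * sd) with hT
  have h1 : (∑ n ∈ T, V n ^ 2) ^ 2 ≤ (T.card : ℝ) * ∑ n ∈ T, (V n ^ 2) ^ 2 :=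
    sq_sum_le_card_mul_sum_sq
  have h2 : ∑ n ∈ T, (V n ^ 2) ^ 2 ≤ C * Ω := by
    refine le_trans ?_ h4
    have e : ∀ n, (V n ^ 2) ^ 2 = V n ^ 4 := fun n => by ring
    simp_rw [e]
    exact Finset.sum_le_sum_of_subset_of_nonneg (Finset.filter_subset _ _)
      (fun m _ _ => by positivity)
  have h3 : 0 ≤ ∑ n ∈ T, (V n ^ 2) ^ 2 := Finset.sum_nonneg (fun _ _ => by positivity)
  have h5 : (∑ n ∈ T, V n ^ 2) ^ 2 ≤ (s2 * Ω) * (C * Ω) :=
    h1.trans (mul_le_mul hc h2 h3 (by positivity))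
  have h6 : 0 ≤ ∑ n ∈ T, V n ^ 2 := Finset.sum_nonneg (fun _ _ => by positivity)
  have h7 : ∑ n ∈ T, V n ^ 2 ≤ Real.sqrt ((s2 * Ω) * (C * Ω)) := Real.le_sqrt_of_sq_le h5
  refine h7.trans (le_of_eq ?_)
  rw [show (s2 * Ω) * (C * Ω) = (s2 * C) * Ω ^ 2 by ring, Real.sqrt_mul' _ (by positivity),
    Real.sqrt_sq hΩ.le]

end PCx

open Classical in
theorem perClass_of (hCheb : Cheb) : PerClass := by
  intro X b J sd V G Ω A s s2 C ξ c e hJ hW hsd hΩ hΩA hs hs2 hC hξ hc he he1 hcard hlo hhi h4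
    hcr hG hedge
  have hA : 0 < A := hΩ.trans_le hΩA
  obtain ⟨M, hM⟩ : ∃ M : ℝ, M = A / Ω := ⟨_, rfl⟩
  have hM1 : 1 ≤ M := by rw [hM, le_div_iff₀ hΩ]; linarith
  have hM0 : 0 < M := by linarith
  have hAM : A / M = Ω := by rw [hM]; field_simp
  have hsq0 : 0 ≤ Real.sqrt (s2 * C) := Real.sqrt_nonneg _
  have hinv : M⁻¹ ≤ 1 := inv_le_one_of_one_le₀ hM1
  have hinv0 : 0 < M⁻¹ := inv_pos.mpr hM0
  have hes : s ≤ e := by rw [he]; linarith
  have hedge' := PCx.edge (V := V) hΩ hs2 h4 hedge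
  obtain ⟨F, hF⟩ : ∃ F : ℕ → ℕ → ℝ, F = fun j n =>
    if n + j * sd < 2 * X then V (n + j * sd) ^ 2 * M⁻¹ else 0 := ⟨_, rfl⟩
  have hF0 : ∀ j n, 0 ≤ F j n := by
    intro j n
    rw [hF]
    simp only
    split_ifs
    · positivity
    · exact le_rfl
  obtain ⟨G', hG'⟩ : ∃ G' : ℕ → ℕ → Prop, G' = fun j n =>
    n + j * sd < 2 * X ∧ G (n + j * sd) := ⟨_, rfl⟩
  have key := hCheb (SI X b) J F G' Ω e C c hJ hΩ (hs.trans hes) he1 hC hc hF0
    (hcard.trans (by nlinarith)) ?_ ?_ ?_ ?_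
  · rw [hG'] at key
    convert key using 5
    refine congrArg (fun T : Finset ℕ => (T.card : ℝ)) ?_
    ext j
    simp only [Finset.mem_filter]
  · -- (a)
    intro j hj
    have e1 : ∑ n ∈ SI X b, F j n =
        ∑ m ∈ (SI X b).filter (fun m => X + j * sd ≤ m), V m ^ 2 * M⁻¹ := by
      rw [hF, ← PCx.subst hW j (fun m => V m ^ 2 * M⁻¹)]
    rw [e1, ← Finset.sum_mul]
    have e2 := Finset.sum_filter_add_sum_filter_not (SI X b) (fun m => X + j * sd ≤ m)
      (fun m => V m ^ 2)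
    have e3 : ∑ m ∈ (SI X b).filter (fun m => ¬ X + j * sd ≤ m), V m ^ 2 ≤
        ∑ n ∈ (SI X b).filter (fun n => n < X + J * sd), V n ^ 2 := by
      apply Finset.sum_le_sum_of_subset_of_nonneg
      · intro m hm
        rw [Finset.mem_filter] at hm ⊢
        refine ⟨hm.1, ?_⟩
        have : j * sd ≤ J * sd := Nat.mul_le_mul_right _ hj.le
        omega
      · intro m _ _
        positivity
    have e4 : (1 - s) * A - Real.sqrt (s2 * C) * Ω ≤
        ∑ m ∈ (SI X b).filter (fun m => X + j * sd ≤ m), V m ^ 2 := by linarith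
    have e5 : ((1 - s) * A - Real.sqrt (s2 * C) * Ω) * M⁻¹ ≤
        (∑ m ∈ (SI X b).filter (fun m => X + j * sd ≤ m), V m ^ 2) * M⁻¹ :=
      mul_le_mul_of_nonneg_right e4 hinv0.le
    refine le_trans ?_ e5
    have e6 : ((1 - s) * A - Real.sqrt (s2 * C) * Ω) * M⁻¹ =
        (1 - s) * Ω - Real.sqrt (s2 * C) * Ω * M⁻¹ := by
      rw [← hAM]; ring
    rw [e6]
    have e7 : Real.sqrt (s2 * C) * Ω * M⁻¹ ≤ Real.sqrt (s2 * C) * Ω * 1 :=
      mul_le_mul_of_nonneg_left hinv (by positivity)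
    rw [he]
    nlinarith
  · -- (b)
    intro j _
    have e1 : ∑ n ∈ SI X b, F j n ^ 2 ≤ ∑ m ∈ SI X b, (V m ^ 2 * M⁻¹) ^ 2 := by
      refine le_trans (le_of_eq ?_) (PCx.subst_le hW j (fun m => (V m ^ 2 * M⁻¹) ^ 2)
        (fun m => by positivity))
      apply Finset.sum_congr rfl
      intro n _
      rw [hF]
      simp only
      split_ifs
      · rfl
      · norm_num
    refine e1.trans ?_
    have e2 : ∑ m ∈ SI X b, (V m ^ 2 * M⁻¹) ^ 2 ≤ ∑ m ∈ SI X b, V m ^ 4 := by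
      apply Finset.sum_le_sum
      intro m _
      have h1 : (V m ^ 2 * M⁻¹) ^ 2 = V m ^ 4 * (M⁻¹ * M⁻¹) := by ring
      have h2 : M⁻¹ * M⁻¹ ≤ 1 := by nlinarith
      rw [h1]
      have h3 : 0 ≤ V m ^ 4 := by positivity
      nlinarith
    exact e2.trans h4
  · -- (c)
    have cross : ∀ i j, i < j → j < J → ∑ n ∈ SI X b, F i n * F j n ≤ (1 + e) * Ω := by
      intro i j hij hj
      have e1 : ∑ n ∈ SI X b, F i n * F j n ≤
          ∑ m ∈ SI X b, (V m * V (m + (j - i) * sd)) ^ 2 * (M⁻¹ * M⁻¹) := by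
        refine le_trans ?_ (PCx.subst_le hW i
          (fun m => (V m * V (m + (j - i) * sd)) ^ 2 * (M⁻¹ * M⁻¹)) (fun m => by positivity))
        apply Finset.sum_le_sum
        intro n _
        rw [hF]
        simp only
        have e2 : n + i * sd + (j - i) * sd = n + j * sd := by
          rw [add_assoc, ← Nat.add_mul]
          congr 2
          omega
        rw [e2]
        split_ifs
        · apply le_of_eq; ring
        · rw [mul_zero]; positivity
        · rw [zero_mul]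
        · rw [zero_mul]
      refine e1.trans ?_
      rw [← Finset.sum_mul]
      have e3 := hcr (j - i) (by omega) (by omega)
      have h2 : M⁻¹ * M⁻¹ ≤ 1 := by nlinarith
      have h3 : 0 ≤ M⁻¹ * M⁻¹ := by positivity
      have e4 : (∑ n ∈ SI X b, (V n * V (n + (j - i) * sd)) ^ 2) * (M⁻¹ * M⁻¹) ≤
          (A ^ 2 / Ω + s * Ω) * (M⁻¹ * M⁻¹) := mul_le_mul_of_nonneg_right e3 h3
      refine e4.trans ?_
      have e5 : (A ^ 2 / Ω + s * Ω) * (M⁻¹ * M⁻¹) = Ω + s * Ω * (M⁻¹ * M⁻¹) := by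
        rw [hM]; field_simp
      rw [e5]
      have e6 : s * Ω * (M⁻¹ * M⁻¹) ≤ s * Ω * 1 :=
        mul_le_mul_of_nonneg_left h2 (by positivity)
      nlinarith
    intro i hi j hj hij
    rcases lt_or_gt_of_ne hij with h | h
    · exact cross i j h hj
    · have := cross j i h hi
      simp_rw [mul_comm (F i _)]
      exact this
  · -- (d)
    intro j _
    have e1 : ∑ n ∈ (SI X b).filter (fun n => ¬ G' j n), F j n ≤
        ∑ m ∈ SI X b, (if G m then 0 else V m ^ 2 * M⁻¹) := by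
      refine le_trans (le_of_eq ?_) (PCx.subst_le hW j
        (fun m => if G m then 0 else V m ^ 2 * M⁻¹) (fun m => by split_ifs <;> positivity))
      rw [Finset.sum_filter]
      apply Finset.sum_congr rfl
      intro n _
      rw [hF, hG']
      simp only
      by_cases h1 : n + j * sd < 2 * X
      · by_cases h2 : G (n + j * sd)
        · simp [h1, h2]
        · simp [h1, h2]
      · simp [h1]
    refine e1.trans ?_
    have e2 : ∑ m ∈ SI X b, (if G m then 0 else V m ^ 2 * M⁻¹) =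
        (∑ m ∈ (SI X b).filter (fun m => ¬ G m), V m ^ 2) * M⁻¹ := by
      rw [Finset.sum_mul, Finset.sum_filter]
      apply Finset.sum_congr rfl
      intro m _
      by_cases h : G m <;> simp [h]
    have e3 := Finset.sum_filter_add_sum_filter_not (SI X b) G (fun m => V m ^ 2)
    have e4 : ∑ m ∈ (SI X b).filter (fun m => ¬ G m), V m ^ 2 ≤ (3 / 4 + s + ξ) * A := by
      have hG2 : (1 / 4 - ξ) * A ≤ ∑ n ∈ (SI X b).filter G, V n ^ 2 := by
        convert hG
      linarith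
    rw [e2]
    have e5 : (∑ m ∈ (SI X b).filter (fun m => ¬ G m), V m ^ 2) * M⁻¹ ≤
        (3 / 4 + s + ξ) * A * M⁻¹ := mul_le_mul_of_nonneg_right e4 hinv0.le
    refine e5.trans ?_
    have e6 : (3 / 4 + s + ξ) * A * M⁻¹ = (3 / 4 + s + ξ) * Ω := by
      rw [← hAM]; ring
    rw [e6, he]
    nlinarith

end Pool.Agent.H474R4.QB
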