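import Pool.Agent.H474R4.QB.Iface

set_option autoImplicit false

open Finset

namespace Pool.Agent.H474R4.QB

open Pool.Agent.H361R2.PP
open Pool.Agent.H410R2
open Pool.Agent.H410R2.AC (wt GG cfg term WW pos Inj coef)

namespace QB1a

theorem mem_cfg {t : ℕ} {B : Finset ℕ} {σ : Fin t → Option ℕ} :
    σ ∈ cfg t B ↔ (∀ τ, ∀ a, σ τ = some a → a ∈ B) ∧ Inj σ := by
  classical
  unfold cfg
  rw [Finset.mem_filter, Fintype.mem_piFinset]
  refine and_congr_left fun _ => forall_congr' fun τ => ?_
  rw [Finset.mem_insertNone]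
  exact ⟨fun h a ha => h a ha, fun h a ha => h a ha⟩

end QB1a

/-- translation of the positions -/
theorem shift : Shift := by
  classical
  intro t dd B y
  unfold WW
  symm
  refine Finset.sum_bij (fun σ _ => fun τ => (σ τ).map (fun a => a + dd)) ?_ ?_ ?_ ?_
  · intro σ hσ
    rw [QB1a.mem_cfg] at hσ ⊢
    refine ⟨fun τ a ha => ?_, fun τ τ' a ha ha' => ?_⟩
    · obtain ⟨b, hb, rfl⟩ := Option.map_eq_some_iff.1 ha
      exact Finset.mem_image_of_mem _ (hσ.1 τ b hb)
    · obtain ⟨b, hb, rfl⟩ := Option.map_eq_some_iff.1 ha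
      obtain ⟨b', hb', h⟩ := Option.map_eq_some_iff.1 ha'
      have : b' = b := by omega
      subst this
      exact hσ.2 τ τ' b' hb hb'
  · intro σ _ σ' _ h
    funext τ
    have h1 := congrFun h τ
    have hinj : Function.Injective (fun a : ℕ => a + dd) := fun a b hab => by
      simpa using hab
    exact Option.map_injective hinj h1
  · intro σ hσ
    rw [QB1a.mem_cfg] at hσ
    have key : (fun τ => ((σ τ).map (fun a => a - dd)).map (fun a => a + dd)) = σ := by
      funext τ
      cases h : σ τ with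
      | none => rfl
      | some a =>
        obtain ⟨b, hb, hab⟩ := Finset.mem_image.1 (hσ.1 τ a h)
        simp only [Option.map_some, Option.some.injEq]
        omega
    refine ⟨fun τ => (σ τ).map (fun a => a - dd), ?_, key⟩
    rw [QB1a.mem_cfg]
    refine ⟨fun τ a ha => ?_, fun τ τ' a ha ha' => ?_⟩
    · obtain ⟨b, hb, rfl⟩ := Option.map_eq_some_iff.1 ha
      obtain ⟨c, hc, hcb⟩ := Finset.mem_image.1 (hσ.1 τ b hb)
      have : b - dd = c := by omega
      rwa [this]
    · obtain ⟨b, hb, rfl⟩ := Option.map_eq_some_iff.1 ha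
      obtain ⟨b', hb', h⟩ := Option.map_eq_some_iff.1 ha'
      obtain ⟨c, hc, hcb⟩ := Finset.mem_image.1 (hσ.1 τ b hb)
      obtain ⟨c', hc', hcb'⟩ := Finset.mem_image.1 (hσ.1 τ' b' hb')
      have : b' = b := by omega
      subst this
      exact hσ.2 τ τ' b' hb hb'
  · intro σ _
    congr 1
    unfold term
    refine Finset.prod_congr rfl fun τ _ => ?_
    show _ = (match (σ τ).map (fun a => a + dd) with
      | none => 1
      | some a => y τ a)
    cases σ τ with
    | none => rfl
    | some a => rfl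

end Pool.Agent.H474R4.QB
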