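import Pool.Agent.H474R4.QB.Iface
import Pool.Agent.H372R2.PPSM4

/-!
QB1c: second moment of the product of the weights at `n` and at `n + dd`.
-/

set_option autoImplicit false

open Finset

namespace Pool.Agent.H474R4.QB

open Pool.Agent.H361R2.PP
open Pool.Agent.H410R2
open Pool.Agent.H410R2.AC (wt GG cfg term WW pos Inj coef)

namespace Sm4XAux

open Pool.Agent.H372R2.PPSM4 (not_prime_pow term_mul term_occ abs_term_le EF_mono dl_nonneg
  ET_mono ET_nonneg sum_ind)

theorem mem_of_cfg {n : ℕ} {B : Finset ℕ} {σ : Fin n → Option ℕ} (h : σ ∈ cfg n B) (τ : Fin n)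
    (a : ℕ) (ha : σ τ = some a) : a ∈ B := by
  classical
  have h0 : σ ∈ Fintype.piFinset (fun _ : Fin n => Finset.insertNone B) :=
    (Finset.mem_filter.mp h).1
  rw [Fintype.mem_piFinset] at h0
  have h1 := h0 τ
  rw [ha] at h1
  exact Finset.some_mem_insertNone.mp h1

theorem WW_congr {n : ℕ} (B : Finset ℕ) (c : (Fin n → Option ℕ) → ℝ) (x y : Fin n → ℕ → ℝ)
    (h : ∀ τ, ∀ a ∈ B, x τ a = y τ a) : WW B c x = WW B c y := by
  unfold AC.WW
  apply Finset.sum_congr rfl
  intro σ hσ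
  congr 1
  unfold AC.term
  apply Finset.prod_congr rfl
  intro τ _
  cases hs : σ τ with
  | none => rfl
  | some a => exact h τ a (mem_of_cfg hσ τ a hs)

/-- the modified coefficients -/
noncomputable def cq {n : ℕ} (cf : ℕ → ℝ) (c0 : ℝ) (c : (Fin n → Option ℕ) → ℝ)
    (σ : Fin n → Option ℕ) : ℝ :=
  c σ * AC.term (fun _ a => - cf a) σ / c0 ^ n

theorem abs_cq_le {n : ℕ} (cf : ℕ → ℝ) (c0 : ℝ) (c : (Fin n → Option ℕ) → ℝ) (h1 : 1 ≤ c0)
    (hcf : ∀ a, |cf a| ≤ c0) (hc : ∀ σ, |c σ| ≤ 1) (σ : Fin n → Option ℕ) :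
    |cq cf c0 c σ| ≤ 1 := by
  have h0 : 0 < c0 := by linarith
  unfold cq
  rw [abs_div, abs_mul, abs_of_pos (pow_pos h0 n), div_le_one (pow_pos h0 _)]
  calc |c σ| * |AC.term (fun _ a => - cf a) σ| ≤ 1 * c0 ^ n := by
        apply mul_le_mul (hc σ) _ (abs_nonneg _) zero_le_one
        apply abs_term_le _ _ h1
        intro τ a
        rw [abs_neg]; exact hcf a
    _ = c0 ^ n := by ring

theorem WW_cq {n : ℕ} (B : Finset ℕ) (cf : ℕ → ℝ) (c0 : ℝ) (c : (Fin n → Option ℕ) → ℝ)
    (x : Fin n → ℕ → ℝ) :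
    AC.WW B (cq cf c0 c) x = AC.WW B c (fun τ a => - cf a * x τ a) / c0 ^ n := by
  unfold AC.WW
  rw [Finset.sum_div]
  apply Finset.sum_congr rfl
  intro σ _
  have h := term_mul (fun _ a => - cf a) x σ
  unfold cq
  rw [← h]
  ring

theorem main_cq {n : ℕ} (B : Finset ℕ) (cf : ℕ → ℝ) (c0 : ℝ)
    (c : (Fin n → Option ℕ) → ℝ) (hcc : ∀ σ, c σ ^ 2 = c σ) (q : Fin n → ℝ) :
    ∑ σ ∈ AC.cfg n B, cq cf c0 c σ ^ 2 * AC.occ q σ =
      AC.WW B c (fun τ a => cf a ^ 2 * q τ) / c0 ^ (2 * n) := by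
  unfold AC.WW
  rw [Finset.sum_div]
  apply Finset.sum_congr rfl
  intro σ _
  have h := term_occ (fun _ a => - cf a) q σ
  have h2 : (fun (τ : Fin n) (a : ℕ) => (- cf a) ^ 2 * q τ) = fun τ a => cf a ^ 2 * q τ := by
    funext τ a; rw [neg_sq]
  simp only [h2] at h
  unfold cq
  rw [← h]
  have : c0 ^ (2 * n) = (c0 ^ n) ^ 2 := by ring
  rw [this, div_pow, mul_pow, hcc σ]
  ring

theorem rg_shift (P : Finset ℕ) (a n dd : ℕ) : rg P a (n + dd) = rg P (a + dd) n := by
  have h : n + dd + a = n + (a + dd) := by ring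
  unfold rg
  rw [h]

theorem FS_shift (S : Finset (Finset ℕ)) (a n dd : ℕ) : FS S a (n + dd) = FS S (a + dd) n := by
  have h : n + dd + a = n + (a + dd) := by ring
  unfold FS
  rw [h]

end Sm4XAux

open Sm4XAux

open Pool.Agent.H372R2.PPSM4 (not_prime_pow term_mul term_occ abs_term_le EF_mono dl_nonneg
  ET_mono ET_nonneg sum_ind rho_lt)

theorem sm4X_of (hSecM : Pool.Agent.H474R3.AA.SecM) (hCross : Pool.Agent.H474R3.AA.Cross)
    (hSm3 : Sm3) (hShift : Shift) (hTr : Tr) : Sm4X := by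
  intro t C c0 hC hc0
  obtain ⟨K, hK1, HK⟩ := hSecM (t + t) 1 C hC
  refine ⟨K, hK1, ?_⟩
  intro δ X b J D0 P2' S Ω Er u D B dd Y V d E hJ hKb hKH hHJ hJ1 hP2 hDS hY hΩ hEq hE hD0
    hV hV1 hd1 hPi hB hdl hdis
  obtain ⟨hTrg, hTFF, hTGG, hTPi, hTV1, hTdl, hTHit⟩ := hTr
  have hX := (HK K le_rfl).2
  have hc00 : (0 : ℝ) < c0 := by linarith
  -- the primes
  have hP1 : ∀ p ∈ P1 (HH X) J, p.Prime ∧ HH X < p ∧ p ≤ 2 ^ 2 ^ J := by
    intro p hp
    simp only [P1, Finset.mem_filter, Finset.mem_range] at hp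
    exact ⟨hp.2.1, hp.2.2, hp.1.le⟩
  have hP2a : ∀ p ∈ P2', p.Prime ∧ HH X < p ∧ 2 ^ 2 ^ J < p := by
    intro p hp
    obtain ⟨hpp, hple⟩ := hP2 p hp
    refine ⟨hpp, lt_of_lt_of_le hHJ hple, lt_of_le_of_ne hple ?_⟩
    intro he
    rw [← he] at hpp
    exact not_prime_pow hJ1 hpp
  have hpr : ∀ p ∈ P1 (HH X) J ∪ P2', p.Prime := by
    intro p hp
    rcases Finset.mem_union.mp hp with h | h
    · exact (hP1 p h).1
    · exact (hP2 p h).1
  have hge1 : ∀ p ∈ P1 (HH X) J ∪ P2', 1 ≤ p := fun p hp => (hpr p hp).one_lt.le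
  have hge1a : ∀ p ∈ P1 (HH X) J, 1 ≤ p := fun p hp => hge1 p (Finset.mem_union_left _ hp)
  have hge1b : ∀ p ∈ P2', 1 ≤ p := fun p hp => hge1 p (Finset.mem_union_right _ hp)
  have hErn : ∀ T, 0 ≤ Er T := hEq.2.1
  have hM : ∀ n ∈ S, n < S.sup id + 1 := by
    intro n hn
    exact Nat.lt_succ_of_le (Finset.le_sup (f := id) hn)
  obtain ⟨hEqd, hDens⟩ := hSm3 none (P1 (HH X) J ∪ P2') S Ω Er (S.sup id + 1) D0 hpr hEq hM
  set M := S.sup id + 1 with hMdef
  set w : ℕ → ℝ := fun n => if n ∈ S then 1 else 0 with hw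
  have hw0 : ∀ m, 0 ≤ w m := by
    intro m; simp only [hw]; split_ifs <;> norm_num
  set B2 := B.image (fun a => a + dd) with hB2
  have hd0 : 0 ≤ d := by
    have := hdl ∅ (Finset.empty_subset _) (by simp)
    exact le_trans (dl_nonneg _ _ _ _ hge1) this
  have hsetup : Pool.Agent.H474R2.GE.Setup 1 K b J (HH X) D0 (P1 (HH X) J) P2' (B ∪ B2) Hs1 q1
      (kk none) (ee none) w M Ω Er := by
    refine ⟨hKb, hKH, hP1, hP2a, hDens, hw0, hΩ, ?_, hEqd, hTHit _ _ hpr⟩
    intro p _
    unfold q1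
    refine ⟨le_rfl, ?_⟩
    norm_num
  have hV1eq : Pool.Agent.H474R2.GE.V1 q1 (P1 (HH X) J) = VV δ X := by
    rw [hTV1, hJ]; rfl
  set cf : ℕ → ℝ := fun a => if a ∈ B then D.cf a else D.cf (a - dd) with hcfdef
  have hcf : ∀ a, |cf a| ≤ c0 := by
    intro a
    simp only [hcfdef]
    split_ifs
    · exact D.hc _
    · exact D.hc _
  have hcfB : ∀ a ∈ B, cf a = D.cf a := by
    intro a ha
    simp only [hcfdef, if_pos ha]
  have hcfB2 : ∀ a ∈ B2, cf a = D.cf (a - dd) := by
    intro a ha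
    have hn : a ∉ B := fun h => Finset.disjoint_left.mp hdis h ha
    simp only [hcfdef, if_neg hn]
  have hDsub : ∀ τ, ∀ R ∈ D.S τ, ∀ p ∈ R, 1 ≤ p :=
    fun τ R hR p hp => hge1b p ((hDS τ R hR).1 hp)
  -- the product of the two weights
  have hprod : ∀ n, WW (B ∪ B2) (cq cf c0 (Pool.Agent.H474R3.AA.cc t B B2))
      (Pool.Agent.H474R2.GE.xx Hs1 q1 (P1 (HH X) J) (Fin.append D.S D.S)
        (Fin.append D.g D.g) n) =
      (WW B (fun _ => 1) (xx D n) * WW B (fun _ => 1) (xx D (n + dd))) / c0 ^ (t + t) := by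
    intro n
    rw [WW_cq, hCross t B B2 hdis]
    congr 1
    congr 1
    · apply WW_congr
      intro τ a ha
      unfold Pool.Agent.H474R2.GE.xx xx
      rw [Fin.append_left, Fin.append_left, hTrg _ _ _ hge1a, hTFF _ _ _ (hDsub τ), hJ,
        hcfB a ha]
      ring
    · have h1 : WW B2 (fun _ => 1) (fun τ a => - cf a *
          Pool.Agent.H474R2.GE.xx Hs1 q1 (P1 (HH X) J) (Fin.append D.S D.S)
            (Fin.append D.g D.g) n (Fin.natAdd t τ) a) =
          WW B2 (fun _ => 1) (fun τ a => D.cf (a - dd) * D.g τ *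
            (rg (P1 (HH X) (JJ δ X)) a n * FS (D.S τ) a n)) := by
        apply WW_congr
        intro τ a ha
        unfold Pool.Agent.H474R2.GE.xx
        rw [Fin.append_right, Fin.append_right, hTrg _ _ _ hge1a, hTFF _ _ _ (hDsub τ), hJ,
          hcfB2 a ha]
        ring
      rw [h1, hB2, hShift]
      apply WW_congr
      intro τ a _
      unfold xx
      rw [rg_shift, FS_shift, Nat.add_sub_cancel]
  -- the main term
  have hmain : ∑ σ ∈ cfg (t + t) (B ∪ B2), cq cf c0 (Pool.Agent.H474R3.AA.cc t B B2) σ ^ 2 *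
      AC.occ (fun τ => (Fin.append D.g D.g τ) ^ 2 * (Pool.Agent.H474R2.GE.V1 q1 (P1 (HH X) J) *
        Pool.Agent.H474R2.GE.GG q1 (Fin.append D.S D.S τ))) σ =
      ZZ D B (fun _ => 1) ^ 2 / c0 ^ (2 * (t + t)) := by
    rw [main_cq _ _ _ _ (Pool.Agent.H474R3.AA.cc_sq t B B2), hCross t B B2 hdis, hV1eq]
    have hZZ : ZZ D B (fun _ => 1) = WW B (fun _ => 1) (qq D) := by
      unfold ZZ AC.WW
      apply Finset.sum_congr rfl
      intro σ _
      ring
    have h1 : WW B (fun _ => 1) (fun τ a => cf a ^ 2 * ((Fin.append D.g D.g (Fin.castAdd t τ)) ^ 2 *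
        (VV δ X * Pool.Agent.H474R2.GE.GG q1 (Fin.append D.S D.S (Fin.castAdd t τ))))) =
        ZZ D B (fun _ => 1) := by
      rw [hZZ]
      apply WW_congr
      intro τ a ha
      unfold qq
      rw [Fin.append_left, Fin.append_left, hTGG, hcfB a ha]
    have h2 : WW B2 (fun _ => 1) (fun τ a => cf a ^ 2 * ((Fin.append D.g D.g (Fin.natAdd t τ)) ^ 2 *
        (VV δ X * Pool.Agent.H474R2.GE.GG q1 (Fin.append D.S D.S (Fin.natAdd t τ))))) =
        ZZ D B (fun _ => 1) := by
      have h3 : WW B2 (fun _ => 1) (fun τ a => cf a ^ 2 *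
          ((Fin.append D.g D.g (Fin.natAdd t τ)) ^ 2 *
          (VV δ X * Pool.Agent.H474R2.GE.GG q1 (Fin.append D.S D.S (Fin.natAdd t τ))))) =
          WW B2 (fun _ => 1) (fun τ a => D.cf (a - dd) ^ 2 * (D.g τ ^ 2 *
            (VV δ X * GG (D.S τ)))) := by
        apply WW_congr
        intro τ a ha
        rw [Fin.append_right, Fin.append_right, hTGG, hcfB2 a ha]
      rw [h3, hB2, hShift, hZZ]
      apply WW_congr
      intro τ a _
      unfold qq
      rw [Nat.add_sub_cancel]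
    rw [h1, h2, sq]
  have hcabs : ∀ σ, |cq cf c0 (Pool.Agent.H474R3.AA.cc t B B2) σ| ≤ 1 :=
    abs_cq_le cf c0 _ hc0 hcf (Pool.Agent.H474R3.AA.cc_abs t B B2)
  have hcne : ∀ σ, cq cf c0 (Pool.Agent.H474R3.AA.cc t B B2) σ ≠ 0 → ∀ τ a, σ τ = some a →
      a ∈ Fin.append (fun _ : Fin t => B) (fun _ : Fin t => B2) τ := by
    intro σ hσ τ a hτ
    have hne : Pool.Agent.H474R3.AA.cc t B B2 σ ≠ 0 := by
      intro h
      apply hσ
      unfold cq
      rw [h]
      simp
    have hcond : (∀ τ : Fin t, ∀ a, σ (Fin.castAdd t τ) = some a → a ∈ B) ∧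
        (∀ τ : Fin t, ∀ a, σ (Fin.natAdd t τ) = some a → a ∈ B2) := by
      by_contra hcon
      apply hne
      unfold Pool.Agent.H474R3.AA.cc
      rw [if_neg hcon]
    induction τ using Fin.addCases with
    | left i => rw [Fin.append_left]; exact hcond.1 i a hτ
    | right i => rw [Fin.append_right]; exact hcond.2 i a hτ
  have key := hX b J (HH X) D0 (P1 (HH X) J) P2' (B ∪ B2) Hs1 q1 (kk none) (ee none) w M Ω Er
    (Fin.append D.S D.S) (Fin.append D.g D.g) (Fin.append Y Y) V d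
    (Fin.append (fun _ : Fin t => B) (fun _ : Fin t => B2)) hsetup
    (by
      rw [Fin.prod_univ_add]
      simp only [Fin.append_left, Fin.append_right]
      exact hD0)
    hV hV1 hd1 (by rw [hTPi]; exact hPi) (by rw [hV1eq]; exact hB)
    (by
      intro τ
      induction τ using Fin.addCases with
      | left i => rw [Fin.append_left]; exact ⟨(D.hg i).1, (D.hg i).2.trans hC⟩
      | right i => rw [Fin.append_right]; exact ⟨(D.hg i).1, (D.hg i).2.trans hC⟩)
    (by
      intro τ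
      induction τ using Fin.addCases with
      | left i => rw [Fin.append_left]; exact fun R hR => (hDS i R hR).1
      | right i => rw [Fin.append_right]; exact fun R hR => (hDS i R hR).1)
    (by
      intro τ
      induction τ using Fin.addCases with
      | left i => rw [Fin.append_left]; exact D.h0 i
      | right i => rw [Fin.append_right]; exact D.h0 i)
    (by
      intro τ τ' hne
      induction τ using Fin.addCases with
      | left i =>
        induction τ' using Fin.addCases with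
        | left j =>
          left
          rw [Fin.append_left, Fin.append_left]
          apply D.hd
          intro hij
          exact hne (by rw [hij])
        | right j =>
          right
          rw [Fin.append_left, Fin.append_right]
          exact hdis
      | right i =>
        induction τ' using Fin.addCases with
        | left j =>
          right
          rw [Fin.append_left, Fin.append_right]
          exact hdis.symm
        | right j =>
          left
          rw [Fin.append_right, Fin.append_right]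
          apply D.hd
          intro hij
          exact hne (by rw [hij]))
    (by
      intro U hU hUc
      rw [hTdl]
      exact hdl U hU (by omega))
    (by
      intro τ
      induction τ using Fin.addCases with
      | left i => rw [Fin.append_left, Fin.append_left]; exact ⟨hY i, fun R hR => (hDS i R hR).2⟩
      | right i =>
        rw [Fin.append_right, Fin.append_right]; exact ⟨hY i, fun R hR => (hDS i R hR).2⟩)
    (cq cf c0 (Pool.Agent.H474R3.AA.cc t B B2)) hcabs hcne
  rw [hmain] at key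
  simp only [hprod] at key
  simp only [hw] at key
  rw [sum_ind S M hM] at key
  have hp4 : (0 : ℝ) < c0 ^ (4 * t) := pow_pos hc00 _
  have hpow : (c0 ^ (t + t)) ^ 2 = c0 ^ (4 * t) := by ring
  have hpow' : c0 ^ (2 * (t + t)) = c0 ^ (4 * t) := by ring
  simp only [div_pow, hpow] at key
  rw [hpow', ← Finset.sum_div, ← mul_div_assoc, ← sub_div, abs_div, abs_of_pos hp4,
    div_le_iff₀ hp4] at key
  refine key.trans ?_
  rw [mul_comm]
  apply mul_le_mul_of_nonneg_left _ hp4.le
  exact EF_mono le_rfl hΩ hV hV1 hd0 hE (ET_nonneg _ _ _ _ hErn)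

end Pool.Agent.H474R4.QB
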