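import Pool.Agent.H474R4.QB.Iface
import Pool.Agent.H862R2.PP.Sm5

/-! Task QB2 of helper474 (helper995): asymptotics of the cross moments. -/

set_option autoImplicit false

open Finset

namespace Pool.Agent.H474R4.QB

open Pool.Agent.H361R2.PP
open Pool.Agent.H410R2
open Pool.Agent.H410R2.AC (wt GG cfg term WW pos Inj coef)

namespace SmxAux

/-- the body of `Sm4X` -/
def BodyX (t : ℕ) (C c0 : ℝ) (K : ℕ) : Prop :=
  ∀ (δ : ℝ) (X b J D0 : ℕ) (P2' : Finset ℕ) (S : Finset ℕ) (Ω : ℝ)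
    (Er : Finset ℕ → ℝ) (u : Fin t → ℝ) (D : Dat t u c0 δ X) (B : Finset ℕ) (dd : ℕ)
    (Y : Fin t → ℕ) (V d E : ℝ),
    J = JJ δ X → K ≤ b → K ≤ HH X → HH X < 2 ^ 2 ^ J → 1 ≤ J →
    (∀ p ∈ P2', p.Prime ∧ 2 ^ 2 ^ J ≤ p) → (∀ τ, ∀ R ∈ D.S τ, R ⊆ P2' ∧ ∏ p ∈ R, p ≤ Y τ) →
    (∀ τ, 1 ≤ Y τ) → 0 ≤ Ω → Eqd none (P1 (HH X) J ∪ P2') S Ω Er →
    ∑ T ∈ (P1 (HH X) J ∪ P2').powerset.filter (fun T : Finset ℕ => ∏ p ∈ T, p ≤ D0),
      (K : ℝ) ^ T.card * Er T ≤ E →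
    (2 ^ 2 ^ J) ^ (K * b) * ((∏ τ, Y τ) * ∏ τ, Y τ) ^ 2 ≤ D0 → 0 < V → V ≤ 1 → d ≤ 1 →
    AC.Pi1 P2' ≤ C / V →
    ((B ∪ B.image (fun a => a + dd)).card : ℝ) * VV δ X ≤ C / V →
    (∀ U ⊆ B ∪ B.image (fun a => a + dd), U.card ≤ 4 * t + 2 →
      EN.dl (ee none) rho (P1 (HH X) J ∪ P2') U ≤ d) →
    Disjoint B (B.image (fun a => a + dd)) →
    |∑ n ∈ S, (WW B (fun _ => 1) (xx D n) * WW B (fun _ => 1) (xx D (n + dd))) ^ 2 -
      Ω * ZZ D B (fun _ => 1) ^ 2| ≤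
      c0 ^ (4 * t) * EN.EF (t + t) K b J (B ∪ B.image (fun a => a + dd)).card Ω V d E

theorem body (h : Sm4X) (t : ℕ) (C c0 : ℝ) (hC : 1 ≤ C) (hc : 1 ≤ c0) :
    ∃ K : ℕ, 1 ≤ K ∧ BodyX t C c0 K := h t C c0 hC hc

theorem core_ptX {t : ℕ} {c0 : ℝ} {K : ℕ} (h4 : BodyX t 1 c0 K)
    {u : Fin t → ℝ} {θ δ V d : ℝ} {b X : ℕ} (hu : ∀ τ, 0 < u τ) (hsum : ∑ τ, u τ ≤ θ / 2)
    (hθ : 0 < θ) (hθ1 : θ ≤ 1 / 32) (hδ : 0 < δ) (hδ1 : δ ≤ 1 / 8)
    (hKb : K ≤ b) (hδb : δ * (K * b) ≤ θ / 4) (hV0 : 0 < V) (hV1 : V ≤ 1) (hd : d ≤ 1)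
    (hX16 : 16 ≤ X) (hKH : K ≤ HH X) (hw1 : (2 : ℝ) ^ 2 ^ JJ δ X ≤ (X : ℝ) ^ δ)
    (hw3 : HH X < 2 ^ 2 ^ JJ δ X)
    (hJ : 1 ≤ JJ δ X)
    (hPi : ∏ p ∈ P2 (JJ δ X) X, (1 + (1 : ℝ) / ((p : ℝ) - 1)) ≤ 1 / V)
    {S : Finset ℕ} {Ω E : ℝ} {Er : Finset ℕ → ℝ}
    (hΩ : 0 ≤ Ω)
    (hEq : Eqd none ((PX X).filter (fun p : ℕ => (p : ℝ) ≤ (X : ℝ) ^ (1 / 2 : ℝ))) S Ω Er)
    (hEs : ∑ D ∈ (PX X).powerset.filter
      (fun D : Finset ℕ => ∏ p ∈ D, (p : ℝ) ≤ (X : ℝ) ^ (1 / 2 - θ)),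
      (K : ℝ) ^ D.card * Er D ≤ E)
    (D : Dat t u c0 δ X) {B : Finset ℕ} {dd : ℕ}
    (hBV : ((B ∪ B.image (fun a => a + dd)).card : ℝ) * VV δ X ≤ 1 / V)
    (hdl : ∀ P : Finset ℕ, (∀ p ∈ P, p.Prime ∧ HH X < p) →
      ∀ U ⊆ B ∪ B.image (fun a => a + dd), U.card ≤ 4 * t + 2 → EN.dl (ee none) rho P U ≤ d)
    (hdis : Disjoint B (B.image (fun a => a + dd))) :
    |∑ n ∈ S, (WW B (fun _ => 1) (xx D n) * WW B (fun _ => 1) (xx D (n + dd))) ^ 2 -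
      Ω * ZZ D B (fun _ => 1) ^ 2| ≤
      c0 ^ (4 * t) * EN.EF (t + t) K b (JJ δ X) (B ∪ B.image (fun a => a + dd)).card Ω V d E := by
  have hXr : (16 : ℝ) ≤ X := by exact_mod_cast hX16
  have hX0 : (0 : ℝ) < X := by linarith
  have hX1 : (1 : ℝ) ≤ X := by linarith
  set J := JJ δ X with hJdef
  set M : ℕ := 2 ^ 2 ^ J with hM
  have hMr : ((2 : ℝ) ^ 2 ^ J) = (M : ℝ) := by rw [hM]; push_cast; rfl
  rw [hMr] at hw1
  have hle : ∀ {x y : ℝ}, x ≤ y → (X : ℝ) ^ x ≤ (X : ℝ) ^ y := fun h =>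
    Real.rpow_le_rpow_of_exponent_le hX1 h
  set z : ℕ := ⌊(X : ℝ) ^ (1 / 4 : ℝ)⌋₊ with hz
  have hzX : z ≤ X := by
    have h1 : (X : ℝ) ^ (1 / 4 : ℝ) ≤ X := by
      calc (X : ℝ) ^ (1 / 4 : ℝ) ≤ (X : ℝ) ^ (1 : ℝ) := hle (by norm_num)
        _ = X := Real.rpow_one _
    have h2 : (z : ℝ) ≤ X := (Nat.floor_le (by positivity)).trans h1
    exact_mod_cast h2
  have hP2' : ∀ p ∈ P2 J z, p.Prime ∧ M ≤ p := fun p hp => (Finset.mem_filter.1 hp).2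
  have hP2sub : P2 J z ⊆ P2 J X := by
    intro p hp
    unfold P2 at hp ⊢
    rw [Finset.mem_filter, Finset.mem_range] at hp ⊢
    exact ⟨by omega, hp.2⟩
  have hP1 : ∀ p ∈ P1 (HH X) J, p.Prime ∧ HH X < p := fun p hp => (Finset.mem_filter.1 hp).2
  have hunion : ∀ p ∈ P1 (HH X) J ∪ P2 J z, p.Prime ∧ HH X < p := by
    intro p hp
    rcases Finset.mem_union.1 hp with h | h
    · exact hP1 p h
    · exact ⟨(hP2' p h).1, lt_of_lt_of_le hw3 (hP2' p h).2⟩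
  have hsubPX : P1 (HH X) J ∪ P2 J z ⊆
      (PX X).filter (fun p : ℕ => (p : ℝ) ≤ (X : ℝ) ^ (1 / 2 : ℝ)) := by
    intro p hp
    obtain ⟨h1, h2⟩ := hunion p hp
    have h3 : (p : ℝ) ≤ (X : ℝ) ^ (1 / 2 : ℝ) := by
      rcases Finset.mem_union.1 hp with h | h
      · have h5 : p < M := by
          have := (Finset.mem_filter.1 h).1
          rwa [Finset.mem_range] at this
        have h6 : (p : ℝ) ≤ M := by exact_mod_cast h5.le
        exact h6.trans (hw1.trans (hle (by linarith)))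
      · have h5 : p < z + 1 := by
          have := (Finset.mem_filter.1 h).1
          rwa [Finset.mem_range] at this
        have h6 : (p : ℝ) ≤ z := by exact_mod_cast (by omega : p ≤ z)
        exact h6.trans ((Nat.floor_le (by positivity)).trans (hle (by norm_num)))
    have h4 : p ≤ X := by
      have h5 : (X : ℝ) ^ (1 / 2 : ℝ) ≤ X := by
        calc (X : ℝ) ^ (1 / 2 : ℝ) ≤ (X : ℝ) ^ (1 : ℝ) := hle (by norm_num)
          _ = X := Real.rpow_one _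
      exact_mod_cast h3.trans h5
    rw [Finset.mem_filter]
    unfold PX
    rw [Finset.mem_filter, Finset.mem_range]
    exact ⟨⟨by omega, h1, h2⟩, h3⟩
  -- sets of primes with small product
  have hfam : ∀ (x : ℝ) (R : Finset ℕ), x ≤ 1 / 4 → R ⊆ P2 J X →
      ∏ p ∈ R, (p : ℝ) ≤ (X : ℝ) ^ x → R ⊆ P2 J z ∧ ∏ p ∈ R, p ≤ ⌊(X : ℝ) ^ x⌋₊ := by
    intro x R hx hR hprod
    refine ⟨?_, ?_⟩
    · intro p hp
      have h1 := Finset.mem_filter.1 (hR hp)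
      unfold P2
      rw [Finset.mem_filter, Finset.mem_range]
      refine ⟨?_, h1.2⟩
      have h2 : p ≤ ∏ q ∈ R, q := Pool.Agent.H862R2.PPSm5.mem_le_prod
        (fun q hq => (Finset.mem_filter.1 (hR hq)).2.1.one_le) hp
      have h3 : (p : ℝ) ≤ (X : ℝ) ^ (1 / 4 : ℝ) := by
        have h5 : (p : ℝ) ≤ ∏ q ∈ R, (q : ℝ) := by
          have h6 : (p : ℝ) ≤ ((∏ q ∈ R, q : ℕ) : ℝ) := Nat.cast_le.2 h2
          rwa [Nat.cast_prod] at h6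
        exact h5.trans (hprod.trans (hle hx))
      have := Nat.le_floor h3
      omega
    · apply Nat.le_floor
      push_cast
      exact hprod
  have hu4 : ∀ τ, u τ ≤ 1 / 4 := by
    intro τ
    have h1 : u τ ≤ ∑ τ, u τ := Finset.single_le_sum (fun i _ => (hu i).le) (Finset.mem_univ τ)
    linarith
  have hone : ∀ x : ℝ, 0 ≤ x → 1 ≤ ⌊(X : ℝ) ^ x⌋₊ := by
    intro x hx
    apply Nat.le_floor
    simpa using Real.one_le_rpow hX1 hx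
  -- the main inequality for the exponents
  have hD0 : M ^ (K * b) * ((∏ τ, ⌊(X : ℝ) ^ (u τ)⌋₊) * ∏ τ, ⌊(X : ℝ) ^ (u τ)⌋₊) ^ 2 ≤
      ⌊(X : ℝ) ^ (1 / 2 - θ)⌋₊ := by
    apply Nat.le_floor
    push_cast
    have h1 : (M : ℝ) ^ (K * b) ≤ (X : ℝ) ^ (θ / 4) := by
      calc (M : ℝ) ^ (K * b) ≤ ((X : ℝ) ^ δ) ^ (K * b) :=
            pow_le_pow_left₀ (Nat.cast_nonneg _) hw1 _
        _ = (X : ℝ) ^ (δ * ((K * b : ℕ) : ℝ)) := by
            rw [← Real.rpow_natCast, ← Real.rpow_mul hX0.le]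
        _ ≤ (X : ℝ) ^ (θ / 4) := by
            apply hle
            push_cast
            exact hδb
    have h3 : ∏ τ, (⌊(X : ℝ) ^ (u τ)⌋₊ : ℝ) ≤ (X : ℝ) ^ (θ / 2) := by
      calc ∏ τ, (⌊(X : ℝ) ^ (u τ)⌋₊ : ℝ) ≤ ∏ τ, (X : ℝ) ^ (u τ) := by
            apply Finset.prod_le_prod
            · intro i _
              positivity
            · intro i _
              exact Nat.floor_le (by positivity)
        _ = (X : ℝ) ^ (∑ τ, u τ) := by rw [Real.rpow_sum_of_pos hX0]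
        _ ≤ (X : ℝ) ^ (θ / 2) := hle hsum
    have h5 : (∏ τ, (⌊(X : ℝ) ^ (u τ)⌋₊ : ℝ)) * ∏ τ, (⌊(X : ℝ) ^ (u τ)⌋₊ : ℝ) ≤
        (X : ℝ) ^ (θ / 2) * (X : ℝ) ^ (θ / 2) :=
      mul_le_mul h3 h3 (by positivity) (by positivity)
    calc (M : ℝ) ^ (K * b) * ((∏ τ, (⌊(X : ℝ) ^ (u τ)⌋₊ : ℝ)) *
          ∏ τ, (⌊(X : ℝ) ^ (u τ)⌋₊ : ℝ)) ^ 2
        ≤ (X : ℝ) ^ (θ / 4) * ((X : ℝ) ^ (θ / 2) * (X : ℝ) ^ (θ / 2)) ^ 2 :=
          mul_le_mul h1 (pow_le_pow_left₀ (by positivity) h5 _) (by positivity) (by positivity)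
      _ = (X : ℝ) ^ (θ / 4 + (θ / 2 + θ / 2) * 2) := by
          rw [Real.rpow_add hX0, ← Real.rpow_add hX0, Real.rpow_mul hX0.le]
          norm_num
      _ ≤ (X : ℝ) ^ (1 / 2 - θ) := hle (by linarith)
  have hErsum : ∑ T ∈ (P1 (HH X) J ∪ P2 J z).powerset.filter
      (fun T : Finset ℕ => ∏ p ∈ T, p ≤ ⌊(X : ℝ) ^ (1 / 2 - θ)⌋₊), (K : ℝ) ^ T.card * Er T ≤ E := by
    refine le_trans ?_ hEs
    apply Finset.sum_le_sum_of_subset_of_nonneg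
    · intro T hT
      rw [Finset.mem_filter, Finset.mem_powerset] at hT ⊢
      refine ⟨fun p hp => (Finset.mem_filter.1 (hsubPX (hT.1 hp))).1, ?_⟩
      have h1 := (Nat.le_floor_iff (by positivity)).1 hT.2
      push_cast at h1
      exact h1
    · intro T _ _
      exact mul_nonneg (by positivity) (hEq.2.1 T)
  exact h4 δ X b J ⌊(X : ℝ) ^ (1 / 2 - θ)⌋₊ (P2 J z) S Ω Er u D B dd
    (fun τ => ⌊(X : ℝ) ^ (u τ)⌋₊) V d E rfl hKb hKH hw3 hJ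
    hP2' (by
      intro τ R hR
      obtain ⟨h1, h2⟩ := D.hS τ R hR
      refine hfam (u τ) R (hu4 τ) h1 ?_
      have hpos : (0 : ℝ) < ∏ p ∈ R, (p : ℝ) := Finset.prod_pos fun p hp => by
        exact_mod_cast (Finset.mem_filter.1 (h1 hp)).2.1.pos
      rw [← Real.log_rpow hX0, Real.log_le_log_iff hpos (by positivity)] at h2
      exact h2) (fun τ => hone _ (hu τ).le) hΩ (Pool.Agent.H862R2.PPSm5.eqd_mono hsubPX hEq)
    hErsum hD0 hV0 hV1 hd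
    ((Pool.Agent.H862R2.PPSm5.pi1_mono hP2sub (fun p hp => (Finset.mem_filter.1 hp).2.1)).trans hPi)
    hBV (fun U hU hUc => hdl _ hunion U hU hUc) hdis

/-- the error term is nonnegative -/
theorem ef_nonneg {n K b J k : ℕ} {A V d E : ℝ} (hA : 0 ≤ A) (hV : 0 < V) (hd : 0 ≤ d)
    (hE : 0 ≤ E) : 0 ≤ EN.EF n K b J k A V d E := by
  unfold EN.EF
  have h1 : 0 ≤ Real.exp (K * d) - 1 := by
    have := Real.add_one_le_exp ((K : ℝ) * d)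
    have h2 : 0 ≤ (K : ℝ) * d := by positivity
    linarith
  positivity

end SmxAux

open SmxAux Filter Topology Pool.Agent.H862R2.PPSm5 in
/-- QB2: asymptotics of the cross moments -/
theorem smx_of (hSm2 : Sm2) (hSm4X : Sm4X) (hInt : EqInt) (hMer : Mer) (hGbd : Gbd) (hW : Wtx)
    (hCnt : Cnt) : SMX := by
  intro t u c0 Λ θ s hu hsum hθ hθ1 hc0 hΛ hs
  obtain ⟨K, hK, h4⟩ := body hSm4X t 1 c0 le_rfl hc0
  obtain ⟨Cm, hCm, hMer⟩ := hMer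
  obtain ⟨Cg, hCg, hGbd⟩ := hGbd 1
  set M : ℕ := Cg + ⌈4 * Λ * Cm⌉₊ with hMdef
  have hM : 1 ≤ M := by omega
  have hMr : (1 : ℝ) ≤ M := by exact_mod_cast hM
  have hM0 : (0 : ℝ) < M := by linarith
  have hMC : 4 * Λ * Cm ≤ M := by
    rw [hMdef]
    push_cast
    have := Nat.le_ceil (4 * Λ * Cm)
    have h2 : (0 : ℝ) ≤ Cg := Nat.cast_nonneg Cg
    linarith
  have hc00 : 0 < c0 := by linarith
  obtain ⟨δ₀, hδ₀, hδ₀8, hδ⟩ := choose_delta K M θ (s / 3) (c0 ^ (2 * (t + t) + 2)) hK hM hθ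
    (by positivity) (by positivity)
  refine ⟨δ₀, hδ₀, fun δ hδ0 hδle Λ' hΛ' => ?_⟩
  obtain ⟨b, hKb, hδb, hb⟩ := hδ δ hδ0 hδle
  have hδ8 : δ ≤ 1 / 8 := hδle.trans hδ₀8
  have hδ1 : δ ≤ 1 := by linarith
  set V : ℝ := (δ / M) ^ M with hV
  have hV0 : 0 < V := by positivity
  have hV1 : V ≤ 1 := by
    apply pow_le_one₀ (by positivity)
    rw [div_le_one hM0]
    linarith
  have hVinv : 1 / V = ((M : ℝ) / δ) ^ M := by
    rw [hV, div_pow, div_pow]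
    field_simp
  obtain ⟨d, hd0, hd1, hd⟩ := choose_d K (c0 ^ (2 * (t + t) + 2) * (K / V ^ K)) (s / 3)
    (by positivity) (by positivity)
  obtain ⟨X₁, h1⟩ := hSm2 (4 * t + 2) (Λ + Λ') d (by positivity) hd0
  obtain ⟨X₂, h2⟩ := hMer δ hδ0 hδ1
  obtain ⟨X₃, h3⟩ := hGbd δ hδ0 hδ8
  obtain ⟨X₄, hw⟩ := hW.2 δ hδ0 hδ1
  obtain ⟨X₅, h5⟩ := hCnt 1 Λ Λ one_pos hΛ hΛ
  obtain ⟨X₆, h6⟩ := hInt K (4 * (t + t) + 6) θ hθ
  have hev : ∀ᶠ X : ℕ in atTop, (max K 2 ≤ HH X) ∧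
      (2 < (X : ℝ) ^ (δ / 2)) ∧
      (∀ (k J : ℕ), (k : ℝ) ≤ (2 * Λ) * Real.log X → (J : ℝ) + 2 ≤ 4 * Real.log X →
      1 ≤ Real.log X ∧
      c0 ^ (2 * (t + t) + 2) * (K / V ^ K) *
        (((k : ℝ) + 1) ^ (4 * (t + t) + 2) *
          (((J : ℝ) + 2) * (1 / Real.log X ^ (4 * (t + t) + 6)))) ≤
        (s / 3 * 1) / Real.log X) := by
    have e1 := HH_tendsto.eventually_ge_atTop (max K 2)
    have e3 : ∀ᶠ X : ℕ in atTop, 2 < (X : ℝ) ^ (δ / 2) :=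
      ((tendsto_rpow_atTop (by positivity : 0 < δ / 2)).comp
        tendsto_natCast_atTop_atTop).eventually_gt_atTop 2
    have e4 := absorb (t + t) (2 * Λ) (c0 ^ (2 * (t + t) + 2) * (K / V ^ K)) (s / 3 * 1)
      (by positivity) (by positivity) (by positivity)
    filter_upwards [e1, e3, e4] with X a1 a3 a4
    exact ⟨a1, a3, a4⟩
  obtain ⟨X₈, h8⟩ := Filter.eventually_atTop.1 hev
  refine ⟨max 16 (max X₁ (max X₂ (max X₃ (max X₄ (max X₅ (max X₆ X₈)))))), ?_⟩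
  intro X hX b0 hb0 D dd hdd hdd'
  simp only [max_le_iff] at hX
  obtain ⟨hX16, hX1, hX2, hX3, hX4, hX5, hX6, hX8⟩ := hX
  obtain ⟨hHH, hrp, hab⟩ := h8 X hX8
  obtain ⟨hw1, hw2, hw3⟩ := hw X hX4
  obtain ⟨hVV0, hVVC, _⟩ := h2 X hX2
  have hXr : (16 : ℝ) ≤ X := by exact_mod_cast hX16
  have hL0 : 0 < Real.log X := Real.log_pos (by linarith)
  have hKH : K ≤ HH X := (le_max_left _ _).trans hHH
  have hJ : 1 ≤ JJ δ X := by
    by_contra h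
    have h0 : JJ δ X = 0 := by omega
    rw [h0] at hw2
    norm_num at hw2
    linarith
  have hJ4 : (JJ δ X : ℝ) + 2 ≤ 4 * Real.log X := JJ_le hδ1 hX16 hw1
  have hVVn := vv_nonneg δ X
  have hPi : ∏ p ∈ P2 (JJ δ X) X, (1 + (1 : ℝ) / ((p : ℝ) - 1)) ≤ 1 / V := by
    have h10 := h3 X hX3
    rw [Nat.cast_one] at h10
    refine h10.trans ?_
    rw [hVinv]
    have hCgr : (1 : ℝ) ≤ Cg := by exact_mod_cast hCg
    have h11 : (1 : ℝ) ≤ Cg / δ := by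
      rw [le_div_iff₀ hδ0]
      linarith
    have h12 : (Cg : ℝ) / δ ≤ M / δ := by
      apply div_le_div_of_nonneg_right _ hδ0.le
      rw [hMdef]
      push_cast
      have : (0 : ℝ) ≤ (⌈4 * Λ * Cm⌉₊ : ℝ) := Nat.cast_nonneg _
      linarith
    calc ((Cg : ℝ) / δ) ^ Cg ≤ ((Cg : ℝ) / δ) ^ M := pow_le_pow_right₀ h11 (by omega)
      _ ≤ ((M : ℝ) / δ) ^ M := pow_le_pow_left₀ (by positivity) h12 _
  have hBBc : ((BB X b0 ⌊Λ * Real.log X⌋₊).card : ℝ) ≤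
      2 * (Λ * Real.log X * (Nat.totient (Wm X) / Wm X)) := by
    have h10 := h5 X hX5 b0 0 (Λ * Real.log X) le_rfl (by linarith) le_rfl
    have h11 : (BB X b0 ⌊Λ * Real.log X⌋₊).filter
        (fun a : ℕ => (0 : ℝ) < a ∧ (a : ℝ) ≤ Λ * Real.log X) = BB X b0 ⌊Λ * Real.log X⌋₊ := by
      apply Finset.filter_true_of_mem
      intro a ha
      have h12 := Finset.mem_Icc.1 (Finset.mem_filter.1 ha).1
      refine ⟨by exact_mod_cast h12.1, (Nat.le_floor_iff (by positivity)).1 h12.2⟩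
    rw [h11, sub_zero, one_mul] at h10
    have h13 := (abs_le.1 h10).2
    linarith
  set B : Finset ℕ := BB X b0 ⌊Λ * Real.log X⌋₊ with hBdef
  have hBmem : ∀ a ∈ B, 1 ≤ a ∧ a ≤ ⌊Λ * Real.log X⌋₊ := by
    intro a ha
    exact Finset.mem_Icc.1 (Finset.mem_filter.1 ha).1
  have hcardU : (B ∪ B.image (fun a => a + dd)).card ≤ 2 * B.card := by
    have e1 := Finset.card_union_le B (B.image (fun a => a + dd))
    have e2 : (B.image (fun a => a + dd)).card ≤ B.card := Finset.card_image_le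
    omega
  have hcardUr : ((B ∪ B.image (fun a => a + dd)).card : ℝ) ≤ 2 * (B.card : ℝ) := by
    exact_mod_cast hcardU
  have hBV : ((B ∪ B.image (fun a => a + dd)).card : ℝ) * VV δ X ≤ 1 / V := by
    have h10 : ((B ∪ B.image (fun a => a + dd)).card : ℝ) * VV δ X ≤
        4 * (Λ * Real.log X * (Nat.totient (Wm X) / Wm X)) * VV δ X :=
      mul_le_mul_of_nonneg_right (by linarith) hVVn
    have h11 : 4 * (Λ * Real.log X * (Nat.totient (Wm X) / Wm X)) * VV δ X =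
        4 * Λ / δ * (VV δ X * ((Nat.totient (Wm X) : ℝ) / Wm X) * (δ * Real.log X)) := by
      field_simp
    have h12 : 4 * Λ / δ * (VV δ X * ((Nat.totient (Wm X) : ℝ) / Wm X) * (δ * Real.log X)) ≤
        4 * Λ / δ * Cm := mul_le_mul_of_nonneg_left hVVC (by positivity)
    have h13 : 4 * Λ / δ * Cm ≤ M / δ := by
      rw [div_mul_eq_mul_div]
      exact div_le_div_of_nonneg_right hMC hδ0.le
    have h14 : (M : ℝ) / δ ≤ ((M : ℝ) / δ) ^ M := by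
      apply le_self_pow₀
      · rw [le_div_iff₀ hδ0]
        linarith
      · omega
    rw [hVinv]
    linarith
  have hcardB : (B.card : ℝ) ≤ Λ * Real.log X := by
    have h10 : B.card ≤ ⌊Λ * Real.log X⌋₊ := by
      calc B.card ≤ (Icc 1 ⌊Λ * Real.log X⌋₊).card := Finset.card_filter_le _ _
        _ = ⌊Λ * Real.log X⌋₊ := by rw [Nat.card_Icc]; omega
    exact (Nat.le_floor_iff (by positivity)).1 h10
  have hdis : Disjoint B (B.image (fun a => a + dd)) := by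
    rw [Finset.disjoint_left]
    intro a ha ha'
    obtain ⟨a', ha'B, rfl⟩ := Finset.mem_image.1 ha'
    have e1 := (hBmem _ ha).2
    have e2 := (hBmem _ ha'B).1
    omega
  have hpos : ∀ a ∈ B ∪ B.image (fun a => a + dd),
      1 ≤ a ∧ (a : ℝ) ≤ (Λ + Λ') * Real.log X := by
    have hBr : ∀ a ∈ B, (a : ℝ) ≤ Λ * Real.log X := fun a ha =>
      (Nat.le_floor_iff (by positivity)).1 (hBmem a ha).2
    intro a ha
    rcases Finset.mem_union.1 ha with h | h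
    · refine ⟨(hBmem a h).1, ?_⟩
      have e1 := hBr a h
      have e2 : 0 ≤ Λ' * Real.log X := by positivity
      linarith
    · obtain ⟨a', ha', rfl⟩ := Finset.mem_image.1 h
      have e1 := hBr a' ha'
      have e2 := (hBmem a' ha').1
      refine ⟨by omega, ?_⟩
      push_cast
      linarith
  have hsubErr : ∀ (Er : Finset ℕ → ℝ), (∀ D, 0 ≤ Er D) →
      ∑ D ∈ (PX X).powerset.filter
        (fun D : Finset ℕ => ∏ p ∈ D, (p : ℝ) ≤ (X : ℝ) ^ (1 / 2 - θ)), (K : ℝ) ^ D.card * Er D ≤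
      ∑ D ∈ (PX X).powerset.filter
        (fun D : Finset ℕ => ∏ p ∈ D, (p : ℝ) ≤ (X : ℝ) ^ (1 - θ)), (K : ℝ) ^ D.card * Er D := by
    intro Er hEr
    apply Finset.sum_le_sum_of_subset_of_nonneg
    · intro T hT
      rw [Finset.mem_filter] at hT ⊢
      exact ⟨hT.1, hT.2.trans (Real.rpow_le_rpow_of_exponent_le (by linarith) (by linarith))⟩
    · intro T _ _
      exact mul_nonneg (by positivity) (hEr T)
  obtain ⟨Er, hEq, hEs⟩ := h6 X hX6 b0 hb0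
  have hΩI : (0 : ℝ) ≤ (X : ℝ) / Wm X := by positivity
  obtain ⟨hL1, hab1⟩ := hab (B ∪ B.image (fun a => a + dd)).card (JJ δ X) (by linarith) hJ4
  have hcore := core_ptX h4 hu hsum hθ hθ1 hδ0 hδ8 hKb hδb hV0 hV1 hd1 hX16 hKH hw1 hw3 hJ
    hPi hΩI hEq ((hsubErr Er hEq.2.1).trans hEs) D hBV
    (fun P hP U hU hU' => h1 X hX1 P hP U hU' (fun a ha => hpos a (hU ha)) none (by simp)) hdis
  have hEF := ef_nonneg (n := t + t) (K := K) (b := b) (J := JJ δ X)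
    (k := (B ∪ B.image (fun a => a + dd)).card) hΩI hV0 hd0.le
    (show (0 : ℝ) ≤ (X : ℝ) / Wm X / Real.log X ^ (4 * (t + t) + 6) by positivity)
  have hT : (X : ℝ) / Wm X * (1 / Real.log X) ≤ (X : ℝ) / Wm X := by
    apply mul_le_of_le_one_right hΩI
    rw [div_le_one hL0]
    exact hL1
  have hfin := ef_le hc00.le hV0 hs hΩI hΩI hb hd hab1 hT hL0
  have hpw : c0 ^ (4 * t) ≤ c0 ^ (2 * (t + t) + 2) := pow_le_pow_right₀ hc0 (by omega)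
  have hstep := mul_le_mul_of_nonneg_right hpw hEF
  have hlast : |∑ n ∈ SI X b0, (WW B (fun _ => 1) (xx D n) * WW B (fun _ => 1) (xx D (n + dd))) ^ 2 -
      (X : ℝ) / Wm X * ZZ D B (fun _ => 1) ^ 2| ≤ s * ((X : ℝ) / Wm X) := by
    refine hcore.trans (hstep.trans (hfin.trans (le_of_eq ?_)))
    ring
  exact hlast

end Pool.Agent.H474R4.QB
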