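import Pool.Agent.H474R4.QB.Iface

/-! QB1b: translation of the notation of the general engine (helper959). -/

set_option autoImplicit false

open Finset

namespace Pool.Agent.H474R4.QB

open Pool.Agent.H361R2.PP
open Pool.Agent.H410R2
open Pool.Agent.H410R2.AC (wt GG cfg term WW pos Inj coef)

namespace TrAux

theorem rho_iff (p a m : ℕ) (hp : 1 ≤ p) : m % p = rho p a ↔ p ∣ m + a := by
  have h1 : a % p < p := Nat.mod_lt _ hp
  have key : (p - a % p) + a ≡ 0 [MOD p] := by
    have h2 : (p - a % p) + a ≡ (p - a % p) + a % p [MOD p] :=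
      Nat.ModEq.add_left _ (Nat.mod_modEq a p).symm
    have h3 : (p - a % p) + a % p = p := by omega
    rw [h3] at h2
    exact h2.trans (by simp [Nat.ModEq])
  have e1 : (m % p = rho p a) ↔ m ≡ p - a % p [MOD p] := by
    unfold rho Nat.ModEq
    exact Iff.rfl
  rw [e1]
  constructor
  · intro h
    have := (h.add_right a).trans key
    exact (Nat.modEq_zero_iff_dvd).1 this
  · intro h
    have h4 : m + a ≡ 0 [MOD p] := (Nat.modEq_zero_iff_dvd).2 h
    exact Nat.ModEq.add_right_cancel' a (h4.trans key.symm)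

theorem mem_Hs1 (p a m : ℕ) (hp : 1 ≤ p) : m % p ∈ Hs1 p a ↔ p ∣ m + a := by
  unfold Hs1
  rw [Finset.mem_singleton, rho_iff p a m hp]

end TrAux

open TrAux in
theorem tr : Tr := by
  refine ⟨?_, ?_, ?_, ?_, ?_, ?_, ?_⟩
  · intro P a m hP
    unfold Pool.Agent.H474R2.GE.rg Pool.Agent.H361R2.PP.rg
    have : (∀ p ∈ P, m % p ∉ Hs1 p a) ↔ (∀ p ∈ P, ¬ p ∣ m + a) := by
      constructor
      · intro h p hp hd
        exact h p hp ((mem_Hs1 p a m (hP p hp)).2 hd)
      · intro h p hp hd
        exact h p hp ((mem_Hs1 p a m (hP p hp)).1 hd)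
    by_cases h : ∀ p ∈ P, ¬ p ∣ m + a
    · rw [if_pos (this.2 h), if_pos h]
    · rw [if_neg (fun h' => h (this.1 h')), if_neg h]
  · intro S a m hS
    unfold Pool.Agent.H474R2.GE.FF FS
    refine Finset.sum_congr rfl fun R hR => ?_
    have e1 : Pool.Agent.H474R2.GE.wt q1 R = wt R := rfl
    rw [e1]
    congr 1
    refine Finset.prod_congr rfl fun p hp => ?_
    unfold Pool.Agent.H474R2.GE.psi
    by_cases h : p ∣ m + a
    · simp only [if_pos ((mem_Hs1 p a m (hS R hR p hp)).2 h), if_pos h]
      rfl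
    · simp only [if_neg (fun h' => h ((mem_Hs1 p a m (hS R hR p hp)).1 h')), if_neg h]
  · intro S
    rfl
  · intro P
    rfl
  · intro P
    rfl
  · intro e P U
    unfold Pool.Agent.H474R2.GE.dl EN.dl
    congr 1
    refine Finset.sum_congr ?_ fun _ _ => rfl
    ext p
    simp only [Finset.mem_filter]
    have e1 : ∀ a b : ℕ, ¬ Disjoint (Hs1 p a) (Hs1 p b) ↔ rho p a = rho p b := by
      intro a b
      unfold Hs1
      rw [Finset.disjoint_singleton]
      exact not_not
    have e2 : ∀ a : ℕ, e p ∈ Hs1 p a ↔ rho p a = e p := by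
      intro a
      unfold Hs1
      rw [Finset.mem_singleton]
      exact eq_comm
    simp only [e1, e2]
  · intro P B hP p hp a ha
    have hp0 : 0 < p := (hP p hp).pos
    refine ⟨?_, ?_, ?_, ?_⟩
    · intro x hx
      unfold Hs1 at hx
      rw [Finset.mem_singleton] at hx
      rw [Finset.mem_range, hx]
      exact Nat.mod_lt _ hp0
    · unfold Hs1
      rw [Finset.card_singleton]
    · unfold Hs1
      rw [Finset.card_singleton]
    · unfold Hs1 q1
      rw [Finset.card_singleton]
      push_cast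
      ring

end Pool.Agent.H474R4.QB
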