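import Pool.Agent.H361R2.PP.Asm1
import Pool.Agent.H361R2.PP.Asm2
import Pool.Agent.H474R3.AA.SecM
import Pool.Agent.H474R3.AA.Cross
import Pool.Agent.H474R2.GE.Main
import Pool.Agent.H474R4.QB.Shift
import Pool.Agent.H474R4.QB.Tr
import Pool.Agent.H474R4.QB.Sm4X
import Pool.Agent.H474R4.QB.Smx
import Pool.Agent.H474R4.QB.ClsM
import Pool.Agent.H474R4.QB.Cheb
import Pool.Agent.H474R4.QB.PerClass
import Pool.Agent.H474R4.QB.Block
import Pool.Agent.H474R4.QB.Final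

set_option autoImplicit false

namespace Pool.Agent.H474R4.QB

open Pool.Agent.H361R2.PP

theorem secM : Pool.Agent.H474R3.AA.SecM :=
  Pool.Agent.H474R3.AA.secM_of Pool.Agent.H212R2.AC4b.countMaps
    (Pool.Agent.H474R2.GE.momW_of
      (Pool.Agent.H474R2.GE.expandW_of Pool.Agent.H20R2.fLem) Pool.Agent.H474R2.GE.sumW
      Pool.Agent.H474R2.GE.localSum)

theorem sm4X : Sm4X :=
  sm4X_of secM Pool.Agent.H474R3.AA.cross Pool.Agent.H379R2.PP.sm3 shift tr

theorem smx : SMX :=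
  smx_of Pool.Agent.H804R2.PPSm2.sm2 sm4X Pool.Agent.H20R2.eqInt
    (Pool.Agent.H488R2.mer Pool.Agent.H325R2.wtx) (Pool.Agent.H488R2.gbd Pool.Agent.H325R2.wtx)
    Pool.Agent.H325R2.wtx Pool.Agent.H363R2.PPCnt.cnt

theorem clsM : ClsM :=
  clsM_of Pool.Agent.H872R2.PPCol.col Pool.Agent.H872R2.PPCol.cob Pool.Agent.H433R2.PPMni.mni
    Pool.Agent.H909R2.pz_holds

theorem block : BlockT :=
  block_of sm smx clsM (perClass_of cheb) Pool.Agent.H708R2.types
    (Pool.Agent.H488R2.ggtypes Pool.Agent.H325R2.wtx)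
    Pool.Agent.H633R2.ggSharp (Pool.Agent.H488R2.mer Pool.Agent.H325R2.wtx)
    (Pool.Agent.H488R2.mrv Pool.Agent.H325R2.wtx) Pool.Agent.H363R2.PPCnt.cnt
    Pool.Agent.H325R2.pnt Pool.Agent.H433R2.PPMni.mni Pool.Agent.H325R2.wtx

theorem final : Final := final_of block Pool.Agent.H325R2.wtx

end Pool.Agent.H474R4.QB
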