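import Pool.Agent.H474R4.QB.Iface

set_option autoImplicit false

open Finset

namespace Pool.Agent.H474R4.QB

open Pool.Agent.H361R2.PP
open Pool.Agent.H410R2
open Pool.Agent.H410R2.AC (wt GG cfg term WW pos Inj coef)

/-- QB1a, file Shift.lean -/
theorem shift : Shift := by sorry

/-- QB1b, file Tr.lean -/
theorem tr : Tr := by sorry

/-- QB1c, file Sm4X.lean -/
theorem sm4X_of (hSecM : Pool.Agent.H474R3.AA.SecM) (hCross : Pool.Agent.H474R3.AA.Cross)
    (hSm3 : Sm3) (hShift : Shift) (hTr : Tr) : Sm4X := by sorry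

/-- QB2, file Smx.lean -/
theorem smx_of (hSm2 : Sm2) (hSm4X : Sm4X) (hInt : EqInt) (hMer : Mer) (hGbd : Gbd) (hW : Wtx)
    (hCnt : Cnt) : SMX := by sorry

/-- QB3, file ClsM.lean -/
theorem clsM_of (hCol : Col) (hCob : Cob) (hMni : Mni) (hPz : Pz) : ClsM := by sorry

/-- QB4, file Cheb.lean -/
theorem cheb : Cheb := by sorry

/-- QB5, file PerClass.lean -/
theorem perClass_of (hCheb : Cheb) : PerClass := by sorry

/-- QB6, file Block.lean -/
theorem block_of (hSM : SM) (hSMX : SMX) (hClsM : ClsM) (hPer : PerClass)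
    (hTy : Pool.Agent.H410R2.AC.Types) (hGGT : GGTypes)
    (hGGS : GGSharp) (hMer : Mer) (hMrv : Mrv) (hCnt : Cnt) (hPnt : PntX) (hMni : Mni)
    (hWtx : Wtx) : BlockT := by sorry

/-- QB7, file Final.lean -/
theorem final_of (hB : BlockT) (hWtx : Wtx) : Final := by sorry

end Pool.Agent.H474R4.QB
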